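import Mathlib
set_option autoImplicit false

universe u v w

open Function

namespace Pool.Agent.Helper480.AC

/-- A class `K` of groups (a property of groups) that is closed under isomorphism, subgroups,
epimorphic images and automorphism groups. -/
structure Closed (K : ∀ (G : Type u) [Group G], Prop) : Prop where
  iso : ∀ (G H : Type u) [Group G] [Group H], Nonempty (G ≃* H) → K G → K H
  sub : ∀ (G : Type u) [Group G] (H : Subgroup G), K G → K H
  quot : ∀ (G Q : Type u) [Group G] [Group Q] (f : G →* Q), Surjective f → K G → K Q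
  aut : ∀ (G : Type u) [Group G], K G → K (MulAut G)

/-- An admissible class: closed under isomorphism, subgroups, epimorphic images and automorphism
groups, and some countable group is not in the class. -/
structure Admissible (K : ∀ (G : Type u) [Group G], Prop) : Prop extends Closed K where
  proper : ∃ (G : Type u) (_ : Group G), Countable G ∧ ¬ K G

/-- `G` has a cyclic subgroup of finite index. -/
def AlmostCyclic (G : Type u) [Group G] : Prop :=
  ∃ C : Subgroup G, IsCyclic C ∧ C.FiniteIndex

/-- some member of `K` is isomorphic to `H` (which may live in another universe) -/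
def Has (K : ∀ (G : Type u) [Group G], Prop) (H : Type v) [Group H] : Prop :=
  ∃ (G : Type u) (_ : Group G), K G ∧ Nonempty (G ≃* H)

variable {K : ∀ (G : Type u) [Group G], Prop}

theorem has_of {G : Type u} [Group G] (h : K G) : Has K G := ⟨G, inferInstance, h, ⟨MulEquiv.refl G⟩⟩

theorem of_has (hK : Closed K) {G : Type u} [Group G] (h : Has K G) : K G := by
  obtain ⟨G0, _, hG0, e⟩ := h
  exact hK.iso _ _ e hG0

theorem has_sub (hK : Closed K) {G : Type v} {H : Type w} [Group G] [Group H] (h : Has K G)
    (f : H →* G) (hf : Injective f) : Has K H := by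
  obtain ⟨G0, _, hG0, ⟨e⟩⟩ := h
  have hf' : Injective (e.symm.toMonoidHom.comp f) := e.symm.injective.comp hf
  exact ⟨(e.symm.toMonoidHom.comp f).range, inferInstance, hK.sub _ _ hG0,
    ⟨(MonoidHom.ofInjective hf').symm⟩⟩

theorem has_quot (hK : Closed K) {G : Type v} {Q : Type w} [Group G] [Group Q] (h : Has K G)
    (f : G →* Q) (hf : Surjective f) : Has K Q := by
  obtain ⟨G0, _, hG0, ⟨e⟩⟩ := h
  have hf' : Surjective (f.comp e.toMonoidHom) := hf.comp e.surjective
  exact ⟨G0 ⧸ (f.comp e.toMonoidHom).ker, inferInstance,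
    hK.quot _ _ (QuotientGroup.mk' _) (QuotientGroup.mk'_surjective _) hG0,
    ⟨QuotientGroup.quotientKerEquivOfSurjective _ hf'⟩⟩

theorem has_aut (hK : Closed K) {G : Type v} [Group G] (h : Has K G) : Has K (MulAut G) := by
  obtain ⟨G0, _, hG0, ⟨e⟩⟩ := h
  exact ⟨MulAut G0, inferInstance, hK.aut _ hG0, ⟨MulAut.congr e⟩⟩

/-! ### free groups -/

theorem free_nat (hK : Admissible K) (h : Has K (FreeGroup ℕ)) : False := by
  obtain ⟨Q, _, hc, hn⟩ := hK.proper
  obtain ⟨s, hs⟩ := exists_surjective_nat Q
  apply hn
  apply of_has hK.toClosed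
  refine has_quot hK.toClosed h (FreeGroup.lift s) ?_
  intro q
  obtain ⟨n, hn⟩ := hs q
  exact ⟨FreeGroup.of n, by simp [hn]⟩

/-- shift action of `ℤ` on the free group on `ℤ` -/
def shift : Multiplicative ℤ →* MulAut (FreeGroup ℤ) where
  toFun n := FreeGroup.freeGroupCongr (Equiv.addLeft n.toAdd)
  map_one' := by
    apply MulEquiv.toMonoidHom_injective
    ext x
    simp
  map_mul' a b := by
    apply MulEquiv.toMonoidHom_injective
    ext x
    simp [add_assoc]

theorem shift_of (n m : ℤ) : shift (Multiplicative.ofAdd n) (FreeGroup.of m) =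
    FreeGroup.of (n + m) := by
  simp [shift]

/-- the two generators of `F_ℤ ⋊ ℤ` -/
def genW : Bool → (FreeGroup ℤ ⋊[shift] Multiplicative ℤ) := fun b =>
  if b then SemidirectProduct.inl (FreeGroup.of 0)
  else SemidirectProduct.inr (Multiplicative.ofAdd 1)

theorem genW_surj : Surjective (FreeGroup.lift genW) := by
  rw [← MonoidHom.range_eq_top, Subgroup.eq_top_iff']
  have h1 : ∀ n : Multiplicative ℤ, SemidirectProduct.inr n ∈ (FreeGroup.lift genW).range := by
    intro n
    refine ⟨(FreeGroup.of false) ^ n.toAdd, ?_⟩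
    rw [map_zpow, FreeGroup.lift_apply_of]
    simp only [genW, Bool.false_eq_true, if_false]
    rw [← map_zpow, ← ofAdd_zsmul]
    simp
  have h2 : ∀ w : FreeGroup ℤ, SemidirectProduct.inl w ∈ (FreeGroup.lift genW).range := by
    have h3 : (FreeGroup.lift genW).range.comap SemidirectProduct.inl = ⊤ := by
      rw [← top_le_iff, ← FreeGroup.closure_range_of, Subgroup.closure_le]
      rintro _ ⟨n, rfl⟩
      have h4 : SemidirectProduct.inl (FreeGroup.of n) =
          SemidirectProduct.inr (Multiplicative.ofAdd n) *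
          (SemidirectProduct.inl (FreeGroup.of 0)) *
          (SemidirectProduct.inr (Multiplicative.ofAdd n)⁻¹ :
            FreeGroup ℤ ⋊[shift] Multiplicative ℤ) := by
        rw [← SemidirectProduct.inl_aut, shift_of, add_zero]
      change SemidirectProduct.inl (FreeGroup.of n) ∈ (FreeGroup.lift genW).range
      rw [h4]
      refine Subgroup.mul_mem _ (Subgroup.mul_mem _ (h1 _) ?_) (h1 _)
      exact ⟨FreeGroup.of true, by simp [genW]⟩
    intro w
    have : w ∈ (FreeGroup.lift genW).range.comap SemidirectProduct.inl := by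
      rw [h3]; trivial
    exact this
  intro x
  rw [← SemidirectProduct.inl_left_mul_inr_right x]
  exact Subgroup.mul_mem _ (h2 _) (h1 _)

theorem free_bool (hK : Admissible K) (h : Has K (FreeGroup Bool)) : False := by
  have h1 := has_quot hK.toClosed h (FreeGroup.lift genW) genW_surj
  have h2 := has_sub hK.toClosed h1
    (SemidirectProduct.inl : FreeGroup ℤ →* (FreeGroup ℤ ⋊[shift] Multiplicative ℤ))
    SemidirectProduct.inl_injective
  have h3 := has_sub hK.toClosed h2
    (FreeGroup.freeGroupCongr Equiv.intEquivNat.symm).toMonoidHom (MulEquiv.injective _)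
  exact free_nat hK h3

/-! ### `GL₂(ℤ)` -/

/-- `(x, y) ↦ (x + 2 y, y)` -/
def tA : (ℤ × ℤ) ≃+ (ℤ × ℤ) where
  toFun v := (v.1 + 2 * v.2, v.2)
  invFun v := (v.1 - 2 * v.2, v.2)
  left_inv v := by ext <;> simp
  right_inv v := by ext <;> simp
  map_add' v w := by ext <;> simp; ring

/-- `(x, y) ↦ (x, 2 x + y)` -/
def tB : (ℤ × ℤ) ≃+ (ℤ × ℤ) where
  toFun v := (v.1, v.2 + 2 * v.1)
  invFun v := (v.1, v.2 - 2 * v.1)
  left_inv v := by ext <;> simp
  right_inv v := by ext <;> simp
  map_add' v w := by ext <;> simp; ring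

/-- generators -/
def tG (b : Bool) : MulAut (Multiplicative (ℤ × ℤ)) :=
  if b then AddEquiv.toMultiplicative tA else AddEquiv.toMultiplicative tB

/-- the nonzero vectors -/
def NZ : SubMulAction (MulAut (Multiplicative (ℤ × ℤ))) (Multiplicative (ℤ × ℤ)) where
  carrier := {v | v ≠ 1}
  smul_mem' := by
    intro c v hv h
    apply hv
    exact (map_eq_one_iff c c.injective).1 h

/-- coordinates of a nonzero vector -/
def cx (v : NZ) : ℤ := (Multiplicative.toAdd v.1).1
def cy (v : NZ) : ℤ := (Multiplicative.toAdd v.1).2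

theorem nz (v : NZ) : cx v ≠ 0 ∨ cy v ≠ 0 := by
  by_contra h
  push Not at h
  apply v.2
  have : Multiplicative.toAdd v.1 = 0 := Prod.ext h.1 h.2
  exact this

def SX (b : Bool) : Set NZ := if b then {v | cy v * cy v ≤ cx v * cy v}
  else {v | 0 ≤ cx v * cy v ∧ cx v * cy v < cy v * cy v}

def SY (b : Bool) : Set NZ := if b then {v | cx v * cy v < - (cy v * cy v)}
  else {v | -(cy v * cy v) ≤ cx v * cy v ∧ cx v * cy v < 0}

theorem cxA (v : NZ) : cx (tG true • v) = cx v + 2 * cy v := rfl
theorem cyA (v : NZ) : cy (tG true • v) = cy v := rfl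
theorem cxB (v : NZ) : cx (tG false • v) = cx v := rfl
theorem cyB (v : NZ) : cy (tG false • v) = cy v + 2 * cx v := rfl
theorem cxA' (v : NZ) : cx ((tG true)⁻¹ • v) = cx v - 2 * cy v := rfl
theorem cyA' (v : NZ) : cy ((tG true)⁻¹ • v) = cy v := rfl
theorem cxB' (v : NZ) : cx ((tG false)⁻¹ • v) = cx v := rfl
theorem cyB' (v : NZ) : cy ((tG false)⁻¹ • v) = cy v - 2 * cx v := rfl

theorem arith1 (x y : ℤ) (h : x ≠ 0 ∨ y ≠ 0) (h1 : -(y * y) ≤ x * y → 0 ≤ x * y) :
    0 ≤ x * (y + 2 * x) ∧ x * (y + 2 * x) < (y + 2 * x) * (y + 2 * x) := by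
  rcases lt_or_ge (x * y) (-(y * y)) with h2 | h2
  · rcases lt_trichotomy y 0 with hy | hy | hy
    · have hx : 0 < x + y := by nlinarith
      constructor
      · nlinarith
      · nlinarith
    · subst hy; simp at h2
    · have hx : x + y < 0 := by nlinarith
      constructor
      · nlinarith
      · nlinarith
  · have h3 := h1 h2
    constructor
    · nlinarith [mul_self_nonneg x]
    · rcases h with h | h
      · nlinarith [mul_self_pos.2 h, mul_self_nonneg y]
      · nlinarith [mul_self_pos.2 h, mul_self_nonneg x]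

theorem arith2 (x y : ℤ) (h : x ≠ 0 ∨ y ≠ 0) (h1 : 0 ≤ x * y → y * y ≤ x * y) :
    -((y - 2 * x) * (y - 2 * x)) ≤ x * (y - 2 * x) ∧ x * (y - 2 * x) < 0 := by
  rcases lt_or_ge (x * y) 0 with h2 | h2
  · constructor
    · nlinarith [mul_self_nonneg x, mul_self_nonneg y]
    · nlinarith [mul_self_nonneg x]
  · have h3 := h1 h2
    have hx : x ≠ 0 := by
      rintro rfl
      simp at h3
      rcases h with h | h
      · exact h rfl
      · nlinarith [mul_self_pos.2 h]
    have hx2 := mul_self_pos.2 hx
    have h4 : x * y ≤ x * x := by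
      by_contra hc
      push Not at hc
      nlinarith [mul_self_nonneg (x - y)]
    constructor
    · nlinarith
    · nlinarith

theorem free_gl : Injective (FreeGroup.lift tG) := by
  apply FreeGroup.injective_lift_of_ping_pong tG SX SY
  · intro b
    cases b
    · refine ⟨⟨Multiplicative.ofAdd (0, 1), ?_⟩, ?_⟩
      · intro h
        have := congrArg (fun v => (Multiplicative.toAdd v).2) h
        simp at this
      · simp [SX, cx, cy]
    · refine ⟨⟨Multiplicative.ofAdd (1, 0), ?_⟩, ?_⟩
      · intro h
        have := congrArg (fun v => (Multiplicative.toAdd v).1) h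
        simp at this
      · simp [SX, cx, cy]
  · intro a b hab
    rw [Function.onFun, Set.disjoint_left]
    intro v
    cases a <;> cases b <;> simp_all [SX]
  · intro a b hab
    rw [Function.onFun, Set.disjoint_left]
    intro v
    cases a <;> cases b <;> simp_all [SY]
  · intro a b
    rw [Set.disjoint_left]
    intro v
    have h1 := mul_self_nonneg (cy v)
    cases a <;> cases b <;> simp [SX, SY] <;> intros <;> omega
  · intro b
    rw [Set.smul_set_subset_iff]
    intro v hv
    cases b
    · simp only [SY, SX, Bool.false_eq_true, if_false, Set.mem_compl_iff, Set.mem_ofPred_eq, cxB,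
        cyB] at hv ⊢
      push Not at hv
      exact arith1 _ _ (nz v) hv
    · simp only [SY, SX, if_true, Set.mem_compl_iff, Set.mem_ofPred_eq, cxA, cyA] at hv ⊢
      nlinarith
  · intro b
    rw [Set.smul_set_subset_iff]
    intro v hv
    cases b
    · simp only [Pi.inv_apply, SY, SX, Bool.false_eq_true, if_false, Set.mem_compl_iff,
        Set.mem_ofPred_eq, cxB', cyB'] at hv ⊢
      push Not at hv
      exact arith2 _ _ (nz v) hv
    · simp only [Pi.inv_apply, SY, SX, if_true, Set.mem_compl_iff, Set.mem_ofPred_eq, cxA',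
        cyA'] at hv ⊢
      nlinarith

/-- no member of an admissible class contains `ℤ²` -/
theorem no_Z2 (hK : Admissible K) {G : Type v} [Group G] (h : Has K G) (a b : G)
    (hab : Commute a b) : ∃ m n : ℤ, (m ≠ 0 ∨ n ≠ 0) ∧ a ^ m * b ^ n = 1 := by
  by_contra hcon
  push Not at hcon
  let f : Multiplicative (ℤ × ℤ) →* G :=
    { toFun := fun v => a ^ (Multiplicative.toAdd v).1 * b ^ (Multiplicative.toAdd v).2
      map_one' := by simp
      map_mul' := by
        intro v w
        simp only [toAdd_mul, Prod.fst_add, Prod.snd_add, zpow_add]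
        have := (hab.zpow_zpow (Multiplicative.toAdd w).1 (Multiplicative.toAdd v).2).eq
        simp only [mul_assoc]
        rw [← mul_assoc (b ^ _) (a ^ _), ← this]
        simp only [mul_assoc] }
  have hf : Injective f := by
    rw [injective_iff_map_eq_one]
    intro v hv
    by_contra hne
    refine hcon (Multiplicative.toAdd v).1 (Multiplicative.toAdd v).2 ?_ hv
    by_contra h0
    push Not at h0
    apply hne
    exact Prod.ext h0.1 h0.2
  have h1 := has_sub hK.toClosed h f hf
  have h2 := has_aut hK.toClosed h1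
  have h3 := has_sub hK.toClosed h2 (FreeGroup.lift tG) free_gl
  exact free_bool hK h3

end Pool.Agent.Helper480.AC
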