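import Pool.Agent.Helper480.AC.P1
set_option autoImplicit false

universe u v w

open Function

namespace Pool.Agent.Helper480.AC

variable {K : ∀ (G : Type u) [Group G], Prop}

/-- the regular representation of a group over `R` -/
noncomputable def regrep (H : Type v) [Group H] (R : Type w) [AddCommGroup R] :
    H →* MulAut (Multiplicative (H →₀ R)) where
  toFun h := AddEquiv.toMultiplicative (Finsupp.domCongr (Equiv.mulLeft h))
  map_one' := by
    apply MulEquiv.ext
    intro x
    apply Multiplicative.toAdd.injective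
    ext a
    simp
    rfl
  map_mul' a b := by
    apply MulEquiv.ext
    intro x
    apply Multiplicative.toAdd.injective
    ext c
    simp
    rfl

theorem regrep_inj (H : Type v) [Group H] (R : Type w) [AddCommGroup R] [Nontrivial R] :
    Injective (regrep H R) := by
  classical
  rw [injective_iff_map_eq_one]
  intro h hh
  obtain ⟨r, hr⟩ := exists_ne (0 : R)
  have h1 := congrArg (fun f : MulAut (Multiplicative (H →₀ R)) =>
    Multiplicative.toAdd (f (Multiplicative.ofAdd (Finsupp.single (1 : H) r))) 1) hh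
  by_contra hne
  have h2 : (h⁻¹ : H) ≠ 1 := by simpa using hne
  simp [regrep] at h1
  rw [Finsupp.single_apply, if_neg hne] at h1
  exact hr h1.symm

/-- no member of an admissible class contains an infinite elementary abelian group -/
theorem no_elem (hK : Admissible K) (R : Type) [AddCommGroup R] [Nontrivial R]
    (h : Has K (Multiplicative (ℕ →₀ R))) : False := by
  obtain ⟨Q, _, hc, hn⟩ := hK.proper
  apply hn
  apply of_has hK.toClosed
  obtain ⟨e⟩ := nonempty_equiv_of_countable (α := ℕ) (β := Q × Multiplicative ℤ)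
  have h1 : Has K (Multiplicative ((Q × Multiplicative ℤ) →₀ R)) :=
    has_sub hK.toClosed h (AddEquiv.toMultiplicative (Finsupp.domCongr e.symm)).toMonoidHom
      (MulEquiv.injective _)
  have h2 := has_sub hK.toClosed (has_aut hK.toClosed h1) (regrep (Q × Multiplicative ℤ) R)
    (regrep_inj _ _)
  exact has_sub hK.toClosed h2 (MonoidHom.inl Q (Multiplicative ℤ)) (fun a b h => congrArg Prod.fst h)

/-- the socle is finite -/
theorem socle_fin (hK : Admissible K) {A : Type v} [CommGroup A] (h : Has K A) (p : ℕ)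
    (hp : p.Prime) : Set.Finite {x : A | x ^ p = 1} := by
  haveI : Fact p.Prime := ⟨hp⟩
  let V : Subgroup A := (powMonoidHom p : A →* A).ker
  have hV : ∀ x : V, x ^ p = 1 := by
    intro x
    have := x.2
    rw [MonoidHom.mem_ker] at this
    exact Subtype.ext this
  letI : Module (ZMod p) (Additive V) := AddCommGroup.zmodModule (n := p) (by
    intro x
    exact hV x.toMul)
  by_contra hinf
  have hVinf : Infinite (Additive V) := by
    have h1 : Infinite {x : A | x ^ p = 1} := Set.infinite_coe_iff.2 hinf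
    exact h1
  let b := Module.Basis.ofVectorSpace (ZMod p) (Additive V)
  have hb : Infinite (Module.Basis.ofVectorSpaceIndex (ZMod p) (Additive V)) := by
    by_contra hfin
    rw [not_infinite_iff_finite] at hfin
    have : Finite (Additive V) := Finite.of_equiv _
      (Finsupp.equivFunOnFinite.symm.trans b.repr.symm.toEquiv)
    exact not_finite (Additive V)
  let e := Infinite.natEmbedding (Module.Basis.ofVectorSpaceIndex (ZMod p) (Additive V))
  obtain ⟨g, hli⟩ : ∃ g : ℕ → Additive V, LinearIndependent (ZMod p) g :=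
    ⟨_, b.linearIndependent.comp e e.injective⟩
  let f : (ℕ →₀ ZMod p) →+ Additive V := (Finsupp.linearCombination (ZMod p) g).toAddMonoidHom
  have hf : Injective f := hli
  have hf2 : Injective (V.subtype.comp (AddMonoidHom.toMultiplicativeLeft f)) := by
    exact V.subtype_injective.comp hf
  exact no_elem hK (ZMod p) (has_sub hK.toClosed h _ hf2)

theorem exp_fin (hK : Admissible K) {A : Type v} [CommGroup A] (h : Has K A) (n : ℕ) (hn : n ≠ 0) :
    Set.Finite {x : A | x ^ n = 1} := by
  revert hn
  refine induction_on_primes (motive := fun n => n ≠ 0 → Set.Finite {x : A | x ^ n = 1})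
    ?_ ?_ ?_ n
  · intro h; exact absurd rfl h
  · intro _
    simp
  · intro p a hp ih hpa
    have ha : a ≠ 0 := right_ne_zero_of_mul hpa
    refine Set.Finite.of_finite_fibers (fun x => x ^ p) ((ih ha).subset ?_) ?_
    · rintro _ ⟨x, hx, rfl⟩
      simpa [← pow_mul] using hx
    · rintro _ ⟨x, hx, rfl⟩
      refine ((socle_fin hK h p hp).image (fun z => x * z)).subset ?_
      rintro y ⟨_, hy⟩
      refine ⟨x⁻¹ * y, ?_, by simp⟩
      simp only [Set.mem_preimage, Set.mem_singleton_iff] at hy
      simp [mul_pow, hy]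

/-- elements of order coprime to `q` -/
def cop (A : Type v) [CommGroup A] (q : ℕ) : Subgroup A where
  carrier := {x | (orderOf x).Coprime q}
  one_mem' := by simp
  mul_mem' := by
    intro x y hx hy
    exact Nat.Coprime.coprime_dvd_left ((Commute.all x y).orderOf_mul_dvd_mul_orderOf)
      (Nat.Coprime.mul_left hx hy)
  inv_mem' := by
    intro x hx
    simpa using hx

/-- the power automorphism -/
noncomputable def powAut (A : Type v) [CommGroup A] (q : ℕ) (k : ℕ) (hk : k ∣ q) :
    MulAut (cop A q) :=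
  MulEquiv.ofBijective (powMonoidHom k) (by
    have hc : ∀ x : cop A q, k.Coprime (orderOf x) := by
      intro x
      have h1 : (orderOf (x : A)).Coprime q := x.2
      rw [Subgroup.orderOf_coe] at h1
      exact (Nat.Coprime.coprime_dvd_right hk h1).symm
    constructor
    · rw [injective_iff_map_eq_one]
      intro x hx
      have h1 : orderOf x ∣ k := orderOf_dvd_of_pow_eq_one hx
      have h2 := Nat.Coprime.eq_one_of_dvd (hc x).symm h1
      exact orderOf_eq_one_iff.1 h2
    · intro x
      obtain ⟨m, hm⟩ := exists_pow_eq_self_of_coprime (hc x)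
      refine ⟨x ^ m, ?_⟩
      simp only [powMonoidHom_apply]
      rw [← pow_mul, mul_comm, pow_mul, hm])

theorem powAut_apply (A : Type v) [CommGroup A] (q k : ℕ) (hk : k ∣ q) (x : cop A q) :
    powAut A q k hk x = x ^ k := rfl

theorem powAut_pow (A : Type v) [CommGroup A] (q k : ℕ) (hk : k ∣ q) (m : ℕ) (x : cop A q) :
    (powAut A q k hk ^ m) x = x ^ (k ^ m) := by
  induction m generalizing x with
  | zero => simp
  | succ m ih =>
    rw [pow_succ, MulAut.mul_apply, ih, powAut_apply, ← pow_mul, pow_succ, mul_comm]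

theorem exp_pair (hK : Admissible K) {A : Type v} [CommGroup A] (h : Has K A) (q r : ℕ)
    (hq : q.Prime) (hr : r.Prime) (hqr : q ≠ r) :
    ∃ e : ℕ, 0 < e ∧ ∀ x : A, (orderOf x).Coprime (q * r) → x ^ e = 1 := by
  have h1 := has_sub hK.toClosed h (cop A (q * r)).subtype (Subgroup.subtype_injective _)
  have h2 := has_aut hK.toClosed h1
  set α := powAut A (q * r) q (dvd_mul_right q r) with hα
  set β := powAut A (q * r) r (dvd_mul_left r q) with hβ
  have hcomm : Commute α β := by
    apply MulEquiv.ext
    intro x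
    rw [MulAut.mul_apply, MulAut.mul_apply, powAut_apply, powAut_apply, powAut_apply, powAut_apply,
      ← pow_mul, ← pow_mul]
    exact congrArg (fun k => x ^ k) (mul_comm r q)
  obtain ⟨m, n, hmn, h3⟩ := no_Z2 hK h2 α β hcomm
  have h4 : α ^ m.toNat * β ^ n.toNat = α ^ (-m).toNat * β ^ (-n).toNat := by
    have e1 : (m.toNat : ℤ) = m + ((-m).toNat : ℤ) := by
      have := Int.toNat_sub_toNat_neg m
      omega
    have e2 : (n.toNat : ℤ) = n + ((-n).toNat : ℤ) := by
      have := Int.toNat_sub_toNat_neg n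
      omega
    rw [← zpow_natCast, ← zpow_natCast α, ← zpow_natCast β, ← zpow_natCast β, e1, e2, zpow_add,
      zpow_add]
    have e3 := (hcomm.zpow_zpow ((-m).toNat : ℤ) n).eq
    calc α ^ m * α ^ ((-m).toNat : ℤ) * (β ^ n * β ^ ((-n).toNat : ℤ))
        = α ^ m * (α ^ ((-m).toNat : ℤ) * β ^ n) * β ^ ((-n).toNat : ℤ) := by group
      _ = α ^ m * (β ^ n * α ^ ((-m).toNat : ℤ)) * β ^ ((-n).toNat : ℤ) := by rw [e3]
      _ = (α ^ m * β ^ n) * (α ^ ((-m).toNat : ℤ) * β ^ ((-n).toNat : ℤ)) := by group
      _ = _ := by rw [h3, one_mul]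
  set N1 := r ^ n.toNat * q ^ m.toNat with hN1
  set N2 := r ^ (-n).toNat * q ^ (-m).toNat with hN2
  have h5 : ∀ x : cop A (q * r), x ^ N1 = x ^ N2 := by
    intro x
    have h6 := congrArg (fun f : MulAut (cop A (q * r)) => f x) h4
    simp only [MulAut.mul_apply] at h6
    rw [powAut_pow, powAut_pow, powAut_pow, powAut_pow, ← pow_mul, ← pow_mul] at h6
    exact h6
  have hne : N1 ≠ N2 := by
    intro heq
    have hcop : Nat.Coprime q r := (Nat.coprime_primes hq hr).2 hqr
    have f1 := congrArg (fun N => N.factorization q) heq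
    have f2 := congrArg (fun N => N.factorization r) heq
    have z1 : r.factorization q = 0 := Nat.factorization_eq_zero_of_not_dvd (fun hd =>
      hqr ((Nat.prime_dvd_prime_iff_eq hq hr).1 hd))
    have z2 : q.factorization r = 0 := Nat.factorization_eq_zero_of_not_dvd (fun hd =>
      hqr ((Nat.prime_dvd_prime_iff_eq hr hq).1 hd).symm)
    simp only [hN1, hN2] at f1 f2
    rw [Nat.factorization_mul (pow_ne_zero _ hr.ne_zero) (pow_ne_zero _ hq.ne_zero),
      Nat.factorization_mul (pow_ne_zero _ hr.ne_zero) (pow_ne_zero _ hq.ne_zero)] at f1 f2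
    simp [z1, z2, hq.factorization_self, hr.factorization_self] at f1 f2
    omega
  refine ⟨((N1 : ℤ) - N2).natAbs, ?_, ?_⟩
  · rw [Int.natAbs_pos]
    intro h0
    apply hne
    omega
  · intro x hx
    have h6 := h5 ⟨x, hx⟩
    have h7 : x ^ N1 = x ^ N2 := congrArg Subtype.val h6
    rcases Nat.lt_or_gt_of_ne hne with hl | hl
    · have e : ((N1 : ℤ) - N2).natAbs = N2 - N1 := by omega
      rw [e, pow_sub x hl.le, h7]; simp
    · have e : ((N1 : ℤ) - N2).natAbs = N1 - N2 := by omega
      rw [e, pow_sub x hl.le, h7]; simp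

theorem exp_all (hK : Admissible K) {A : Type v} [CommGroup A] (h : Has K A)
    (ht : ∀ x : A, IsOfFinOrder x) : ∃ e : ℕ, e ≠ 0 ∧ ∀ x : A, x ^ e = 1 := by
  obtain ⟨e1, he1, h1⟩ := exp_pair hK h 2 3 (by norm_num) (by norm_num) (by norm_num)
  obtain ⟨e2, he2, h2⟩ := exp_pair hK h 5 7 (by norm_num) (by norm_num) (by norm_num)
  refine ⟨e1 * e2, by positivity, ?_⟩
  intro x
  have hn : orderOf x ≠ 0 := (ht x).orderOf_pos.ne'
  obtain ⟨a, m1, hm1, e3⟩ := Nat.exists_eq_pow_mul_and_not_dvd hn 2 (by norm_num)
  have hm10 : m1 ≠ 0 := by rintro rfl; simp at hm1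
  obtain ⟨b, m2, hm2, e4⟩ := Nat.exists_eq_pow_mul_and_not_dvd hm10 3 (by norm_num)
  have hm20 : m2 ≠ 0 := by rintro rfl; simp at hm2
  set c := 2 ^ a * 3 ^ b with hc
  have hc0 : c ≠ 0 := by positivity
  have e5 : orderOf x = c * m2 := by rw [e3, e4, hc]; ring
  have h2m2 : Nat.Coprime m2 2 := by
    rw [Nat.coprime_comm, Nat.Prime.coprime_iff_not_dvd (by norm_num)]
    intro hd
    apply hm1
    rw [e4]
    exact hd.mul_left _
  have h3m2 : Nat.Coprime m2 3 := by
    rw [Nat.coprime_comm, Nat.Prime.coprime_iff_not_dvd (by norm_num)]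
    exact hm2
  have o1 : orderOf (x ^ c) = m2 := by
    rw [orderOf_pow_of_dvd hc0 (by rw [e5]; exact dvd_mul_right _ _), e5]
    exact Nat.mul_div_cancel_left _ (Nat.pos_of_ne_zero hc0)
  have o2 : orderOf (x ^ m2) = c := by
    rw [orderOf_pow_of_dvd hm20 (by rw [e5]; exact dvd_mul_left _ _), e5]
    exact Nat.mul_div_cancel _ (Nat.pos_of_ne_zero hm20)
  have d1 : m2 ∣ e1 := by
    have := h1 (x ^ c) (by rw [o1]; exact Nat.Coprime.mul_right h2m2 h3m2)
    have := orderOf_dvd_of_pow_eq_one this
    rwa [o1] at this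
  have d2 : c ∣ e2 := by
    have hcc : Nat.Coprime c (5 * 7) := by
      rw [hc]
      apply Nat.Coprime.mul_left
      · exact Nat.Coprime.pow_left _ (by norm_num)
      · exact Nat.Coprime.pow_left _ (by norm_num)
    have := h2 (x ^ m2) (by rw [o2]; exact hcc)
    have := orderOf_dvd_of_pow_eq_one this
    rwa [o2] at this
  have d3 : orderOf x ∣ e1 * e2 := by
    rw [e5, mul_comm]
    exact mul_dvd_mul d1 d2
  exact orderOf_dvd_iff_pow_eq_one.1 d3

/-- torsion abelian members are finite -/
theorem tor_fin (hK : Admissible K) {A : Type v} [CommGroup A] (h : Has K A)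
    (ht : ∀ x : A, IsOfFinOrder x) : Finite A := by
  obtain ⟨e, he, h1⟩ := exp_all hK h ht
  have h2 := exp_fin hK h e he
  have h3 : {x : A | x ^ e = 1} = Set.univ := by
    ext x; simp [h1 x]
  rw [h3] at h2
  exact Set.finite_univ_iff.1 h2

/-- abelian members are almost cyclic -/
theorem comm_ac (hK : Admissible K) {A : Type v} [CommGroup A] (h : Has K A) :
    ∃ c : A, (Subgroup.zpowers c).FiniteIndex := by
  by_cases ht : ∀ x : A, IsOfFinOrder x
  · have := tor_fin hK h ht
    exact ⟨1, inferInstance⟩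
  · push Not at ht
    obtain ⟨c, hc⟩ := ht
    refine ⟨c, ?_⟩
    have hq : Has K (A ⧸ Subgroup.zpowers c) :=
      has_quot hK.toClosed h (QuotientGroup.mk' _) (QuotientGroup.mk'_surjective _)
    have hfin : Finite (A ⧸ Subgroup.zpowers c) := by
      apply tor_fin hK hq
      intro y
      obtain ⟨d, rfl⟩ := QuotientGroup.mk_surjective y
      obtain ⟨m, n, hmn, h1⟩ := no_Z2 hK h c d (Commute.all _ _)
      have hn : n ≠ 0 := by
        rintro rfl
        rcases hmn with hm | hm
        · apply hc
          rw [zpow_zero, mul_one] at h1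
          exact isOfFinOrder_iff_zpow_eq_one.2 ⟨m, hm, h1⟩
        · exact hm rfl
      rw [isOfFinOrder_iff_zpow_eq_one]
      refine ⟨n, hn, ?_⟩
      rw [← QuotientGroup.mk_zpow, QuotientGroup.eq_one_iff]
      have : d ^ n = c ^ (-m) := by
        rw [zpow_neg]
        exact eq_inv_of_mul_eq_one_right h1
      rw [this]
      exact Subgroup.zpow_mem_zpowers c _
    exact Subgroup.finiteIndex_of_finite_quotient

end Pool.Agent.Helper480.AC
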