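import Pool.Agent.Helper480.AC.P2
set_option autoImplicit false

universe u v w

open Function
open scoped commutatorElement

namespace Pool.Agent.Helper480.AC

variable {K : ∀ (G : Type u) [Group G], Prop}

/-- working form of almost cyclic -/
def AC' (G : Type v) [Group G] : Prop := ∃ c : G, (Subgroup.zpowers c).FiniteIndex

theorem ac_iff (G : Type u) [Group G] : AlmostCyclic G ↔ AC' G := by
  constructor
  · rintro ⟨C, hC, hfi⟩
    obtain ⟨c, hc⟩ := (Subgroup.isCyclic_iff_exists_zpowers_eq_top C).1 hC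
    exact ⟨c, by rw [hc]; exact hfi⟩
  · rintro ⟨c, hc⟩
    exact ⟨Subgroup.zpowers c, inferInstance, hc⟩

/-- finite index subgroups -/
theorem ac_of_sub {G : Type v} [Group G] (H : Subgroup G) (hH : H.FiniteIndex) (h : AC' H) :
    AC' G := by
  obtain ⟨c, hc⟩ := h
  refine ⟨(c : G), ?_⟩
  have e : Subgroup.zpowers (c : G) = (Subgroup.zpowers c).map H.subtype := by
    rw [MonoidHom.map_zpowers]; rfl
  rw [e]
  constructor
  rw [Subgroup.index_map_subtype]
  exact mul_ne_zero hc.index_ne_zero hH.index_ne_zero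

/-- a finite group by an almost cyclic infinite one -/
theorem ext_fin {G : Type v} [Group G] (N : Subgroup G) [N.Normal] [Finite N] (g : G)
    (hg : (Subgroup.zpowers (QuotientGroup.mk g : G ⧸ N)).FiniteIndex) :
    (Subgroup.zpowers g).FiniteIndex := by
  let H : Subgroup G := (Subgroup.zpowers (QuotientGroup.mk g : G ⧸ N)).comap (QuotientGroup.mk' N)
  have hH : H.FiniteIndex := by
    constructor
    rw [Subgroup.index_comap_of_surjective _ (QuotientGroup.mk'_surjective N)]
    exact hg.index_ne_zero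
  have hfin : Finite (G ⧸ H) := Subgroup.finite_quotient_of_finiteIndex
  have hsurj : Surjective (fun p : (G ⧸ H) × N =>
      (QuotientGroup.mk (p.1.out * (p.2 : G)) : G ⧸ Subgroup.zpowers g)) := by
    intro y
    obtain ⟨x, rfl⟩ := QuotientGroup.mk_surjective y
    have h1 : (Quotient.out (QuotientGroup.mk x : G ⧸ H))⁻¹ * x ∈ H := by
      rw [← QuotientGroup.eq]
      exact QuotientGroup.out_eq' _
    obtain ⟨k, hk⟩ := Subgroup.mem_zpowers_iff.1 (Subgroup.mem_comap.1 h1)
    set t := Quotient.out (QuotientGroup.mk x : G ⧸ H) with ht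
    have h2 : t⁻¹ * x * g ^ (-k) ∈ N := by
      rw [← QuotientGroup.eq_one_iff]
      have h3 : (QuotientGroup.mk (t⁻¹ * x) : G ⧸ N) = (QuotientGroup.mk g) ^ k := hk.symm
      rw [QuotientGroup.mk_mul, h3, QuotientGroup.mk_zpow, ← zpow_add]
      simp
    refine ⟨(QuotientGroup.mk x, ⟨t⁻¹ * x * g ^ (-k), h2⟩), ?_⟩
    simp only
    rw [QuotientGroup.eq]
    refine ⟨k, ?_⟩
    change g ^ k = _
    rw [← ht]
    group
  have : Finite (G ⧸ Subgroup.zpowers g) := Finite.of_surjective _ hsurj
  exact Subgroup.finiteIndex_of_finite_quotient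

/-- extensions -/
theorem ext_ac (hK : Admissible K) {G : Type v} [Group G] (h : Has K G) (N : Subgroup G)
    [N.Normal] (hN : AC' N) (hQ : AC' (G ⧸ N)) : AC' G := by
  obtain ⟨c, hc⟩ := hN
  obtain ⟨g', hg'⟩ := hQ
  obtain ⟨g, rfl⟩ := QuotientGroup.mk_surjective g'
  by_cases hgo : IsOfFinOrder (QuotientGroup.mk g : G ⧸ N)
  · -- the quotient is finite
    have h1 : Finite (Subgroup.zpowers (QuotientGroup.mk g : G ⧸ N)) := by
      rw [Subgroup.zpowers_eq_closure]
      have := hgo.finite_zpowers
      rwa [Subgroup.zpowers_eq_closure] at this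
    have h2 : Finite ((G ⧸ N) ⧸ Subgroup.zpowers (QuotientGroup.mk g : G ⧸ N)) :=
      Subgroup.finite_quotient_of_finiteIndex
    have h3 : Finite (G ⧸ N) :=
      Finite.of_subgroup_quotient (Subgroup.zpowers (QuotientGroup.mk g : G ⧸ N))
    exact ac_of_sub N Subgroup.finiteIndex_of_finite_quotient ⟨c, hc⟩
  by_cases hco : IsOfFinOrder c
  · have h2 : Finite N := by
      have h1 : Finite (Subgroup.zpowers c) := hco.finite_zpowers
      have h2 : Finite (N ⧸ Subgroup.zpowers c) := Subgroup.finite_quotient_of_finiteIndex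
      exact Finite.of_subgroup_quotient (Subgroup.zpowers c)
    exact ⟨g, ext_fin N g hg'⟩
  · exfalso
    set e := ((Subgroup.zpowers c).index).factorial with he
    have hpow : ∀ x : N, x ^ e ∈ Subgroup.zpowers c := by
      intro x
      obtain ⟨n, hn0, hn1, hn2⟩ := Subgroup.exists_pow_mem_of_index_ne_zero hc.index_ne_zero x
      obtain ⟨k, hk⟩ := Nat.dvd_factorial hn0 hn1
      rw [he, hk, pow_mul]
      exact Subgroup.pow_mem _ hn2 k
    let T : Set G := {y | ∃ x : N, (x : G) ^ e = y}
    let S : Subgroup G := Subgroup.closure T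
    have hSle : S ≤ Subgroup.zpowers (c : G) := by
      rw [Subgroup.closure_le]
      rintro _ ⟨x, rfl⟩
      obtain ⟨k, hk⟩ := Subgroup.mem_zpowers_iff.1 (hpow x)
      refine ⟨k, ?_⟩
      have := congrArg (fun z : N => (z : G)) hk
      simpa using this
    have hSconj : ∀ a s : G, s ∈ S → a * s * a⁻¹ ∈ S := by
      intro a s hs
      have h1 : S ≤ S.comap (MulAut.conj a).toMonoidHom := by
        rw [Subgroup.closure_le]
        rintro _ ⟨x, rfl⟩
        apply Subgroup.subset_closure
        refine ⟨⟨a * x * a⁻¹, Subgroup.Normal.conj_mem inferInstance _ x.2 a⟩, ?_⟩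
        simp [conj_pow]
      exact h1 hs
    have hScyc : IsCyclic S :=
      isCyclic_of_injective (Subgroup.inclusion hSle) (Subgroup.inclusion_injective hSle)
    obtain ⟨d, hd⟩ := (Subgroup.isCyclic_iff_exists_zpowers_eq_top S).1 hScyc
    have hdS : d ∈ S := by rw [← hd]; exact Subgroup.mem_zpowers d
    have hco' : ¬ IsOfFinOrder (c : G) := by
      rw [← orderOf_eq_zero_iff] at hco ⊢
      rwa [Subgroup.orderOf_coe]
    have hdo : ∀ m : ℤ, d ^ m = 1 → m = 0 := by
      intro m hm
      by_contra hm0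
      have h1 : (c : G) ^ e ∈ S := Subgroup.subset_closure ⟨c, rfl⟩
      rw [← hd] at h1
      obtain ⟨k, hk⟩ := Subgroup.mem_zpowers_iff.1 h1
      apply hco'
      rw [isOfFinOrder_iff_zpow_eq_one]
      refine ⟨e * m, ?_, ?_⟩
      · exact mul_ne_zero (by exact_mod_cast Nat.factorial_ne_zero _) hm0
      · rw [zpow_mul, zpow_natCast, ← hk, ← zpow_mul, mul_comm, zpow_mul, hm, one_zpow]
    have h1 : g * d * g⁻¹ ∈ S := hSconj g d hdS
    have h2 : g⁻¹ * d * g ∈ S := by simpa using hSconj g⁻¹ d hdS
    rw [← hd] at h1 h2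
    obtain ⟨i, hi⟩ := Subgroup.mem_zpowers_iff.1 h1
    obtain ⟨l, hl⟩ := Subgroup.mem_zpowers_iff.1 h2
    have hil : i * l = 1 := by
      have e1 : d ^ (i * l) = d := by
        rw [zpow_mul, hi, conj_zpow, hl]
        group
      have e2 : d ^ (i * l - 1) = 1 := by
        rw [zpow_sub, e1]; simp
      have := hdo _ e2
      linarith
    have hi2 : i * i = 1 := by
      rcases Int.isUnit_iff.1 (IsUnit.of_mul_eq_one _ hil) with h3 | h3 <;> rw [h3] <;> norm_num
    have hcomm : Commute d (g ^ 2) := by
      have e1 : g ^ 2 * d * (g ^ 2)⁻¹ = d := by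
        have e2 : g ^ 2 * d * (g ^ 2)⁻¹ = g * (g * d * g⁻¹) * g⁻¹ := by
          simp [pow_two, mul_assoc]
        rw [e2, ← hi, ← conj_zpow, ← hi, ← zpow_mul, hi2, zpow_one]
      exact (mul_inv_eq_iff_eq_mul.1 e1).symm
    obtain ⟨m, n, hmn, h3⟩ := no_Z2 hK h d (g ^ 2) hcomm
    have hdN : d ∈ N := by
      have := hSle hdS
      obtain ⟨k, hk⟩ := Subgroup.mem_zpowers_iff.1 this
      rw [← hk]
      exact Subgroup.zpow_mem _ c.2 k
    have hn : n = 0 := by
      by_contra hn0
      apply hgo
      rw [isOfFinOrder_iff_zpow_eq_one]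
      refine ⟨2 * n, mul_ne_zero two_ne_zero hn0, ?_⟩
      have h4 := congrArg (fun z : G => (QuotientGroup.mk z : G ⧸ N)) h3
      simp only [QuotientGroup.mk_mul, QuotientGroup.mk_zpow, QuotientGroup.mk_pow,
        QuotientGroup.mk_one] at h4
      rw [(QuotientGroup.eq_one_iff d).2 hdN, one_zpow, one_mul] at h4
      rw [zpow_mul]
      exact_mod_cast h4
    subst hn
    rw [zpow_zero, mul_one] at h3
    have := hdo m h3
    simp [this] at hmn

theorem sol_ac (hK : Admissible K) (n : ℕ) : ∀ {G : Type v} [Group G], Has K G →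
    derivedSeries G n = ⊥ → AC' G := by
  induction n with
  | zero =>
    intro G _ h hn
    rw [derivedSeries_zero] at hn
    have h1 : Subsingleton G := by
      constructor
      intro a b
      have ha : a ∈ (⊤ : Subgroup G) := trivial
      have hb : b ∈ (⊤ : Subgroup G) := trivial
      rw [hn, Subgroup.mem_bot] at ha hb
      rw [ha, hb]
    exact ⟨1, inferInstance⟩
  | succ n ih =>
    intro G _ h hn
    have hQ : AC' (G ⧸ derivedSeries G n) := by
      apply ih (has_quot hK.toClosed h (QuotientGroup.mk' _) (QuotientGroup.mk'_surjective _))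
      rw [← map_derivedSeries_eq (QuotientGroup.mk'_surjective (derivedSeries G n)),
        QuotientGroup.map_mk'_self]
    have hN : AC' (derivedSeries G n) := by
      have hcomm : ∀ x y : derivedSeries G n, x * y = y * x := by
        intro x y
        rw [derivedSeries_succ] at hn
        have h1 : ⁅(x : G), (y : G)⁆ ∈ (⊥ : Subgroup G) := by
          rw [← hn]
          exact Subgroup.commutator_mem_commutator x.2 y.2
        rw [Subgroup.mem_bot, commutatorElement_eq_one_iff_mul_comm] at h1
        exact Subtype.ext h1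
      letI : CommGroup (derivedSeries G n) :=
        { (inferInstance : Group (derivedSeries G n)) with mul_comm := hcomm }
      exact comm_ac hK (has_sub hK.toClosed h (derivedSeries G n).subtype
        (Subgroup.subtype_injective _))
    exact ext_ac hK h _ hN hQ

theorem vsol_ac (hK : Admissible K) {G : Type v} [Group G] (h : Has K G) (H : Subgroup G)
    (hfi : H.FiniteIndex) (hs : Group.IsSolvable H) : AC' G := by
  obtain ⟨n, hn⟩ := hs.solvable
  exact ac_of_sub H hfi (sol_ac hK n (has_sub hK.toClosed h H.subtype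
    (Subgroup.subtype_injective _)) hn)

end Pool.Agent.Helper480.AC
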