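import Pool.Agent.Helper480.AC.P3
set_option autoImplicit false

universe u v w

open Function

namespace Pool.Agent.Helper480.AC

variable {K : ∀ (G : Type u) [Group G], Prop}

theorem has_Z (hK : Closed K) {G : Type v} [Group G] (h : Has K G) (g : G)
    (hg : ¬ IsOfFinOrder g) : Has K (Multiplicative ℤ) := by
  refine has_sub hK h (zpowersHom G g) ?_
  rw [injective_iff_map_eq_one]
  intro n hn
  by_contra hne
  apply hg
  rw [isOfFinOrder_iff_zpow_eq_one]
  exact ⟨n.toAdd, hne, hn⟩

theorem cyc_of_Z (hK : Closed K) (h : Has K (Multiplicative ℤ)) {G : Type v} [Group G]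
    (hG : IsCyclic G) : Has K G := by
  obtain ⟨g, hg⟩ := hG.exists_generator
  refine has_quot hK h (zpowersHom G g) ?_
  intro x
  obtain ⟨k, hk⟩ := Subgroup.mem_zpowers_iff.1 (hg x)
  exact ⟨Multiplicative.ofAdd k, hk⟩

/-- an odd prime attached to each element of a finite type -/
noncomputable def pr {ι : Type v} [Fintype ι] (i : ι) : ℕ :=
  Nat.nth Nat.Prime ((Fintype.equivFin ι i : ℕ) + 1)

theorem pr_prime {ι : Type v} [Fintype ι] (i : ι) : (pr i).Prime := Nat.prime_nth_prime _

theorem pr_inj {ι : Type v} [Fintype ι] : Injective (pr : ι → ℕ) := by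
  intro i j h
  have h1 := Nat.nth_injective Nat.infinite_setOfPred_prime h
  have h2 : (Fintype.equivFin ι i : ℕ) = Fintype.equivFin ι j := by omega
  exact (Fintype.equivFin ι).injective (Fin.ext h2)

theorem pr_gt {ι : Type v} [Fintype ι] (i : ι) : 2 < pr i := by
  have h0 : Nat.nth Nat.Prime 0 = 2 := Nat.nth_prime_zero_eq_two
  rw [← h0]
  exact Nat.nth_strictMono Nat.infinite_setOfPred_prime (Nat.succ_pos _)

/-- sign changes on a product of cyclic groups of odd prime order -/
noncomputable def signs (ι : Type v) [Fintype ι] :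
    (ι → ℤˣ) →* MulAut (Multiplicative (∀ i : ι, ZMod (pr i))) where
  toFun ε := AddEquiv.toMultiplicative
    { toFun := fun x i => ((ε i : ℤ) : ZMod (pr i)) * x i
      invFun := fun x i => ((ε i : ℤ) : ZMod (pr i)) * x i
      left_inv := by
        intro x
        funext i
        change ((ε i : ℤ) : ZMod (pr i)) * (((ε i : ℤ) : ZMod (pr i)) * x i) = x i
        rw [← mul_assoc, ← Int.cast_mul, ← Units.val_mul, Int.units_mul_self]
        simp
      right_inv := by
        intro x
        funext i
        change ((ε i : ℤ) : ZMod (pr i)) * (((ε i : ℤ) : ZMod (pr i)) * x i) = x i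
        rw [← mul_assoc, ← Int.cast_mul, ← Units.val_mul, Int.units_mul_self]
        simp
      map_add' := by
        intro x y
        funext i
        simp [mul_add] }
  map_one' := by
    apply MulEquiv.ext
    intro x
    apply Multiplicative.toAdd.injective
    funext i
    simp
  map_mul' a b := by
    apply MulEquiv.ext
    intro x
    apply Multiplicative.toAdd.injective
    funext i
    simp [mul_assoc]

theorem signs_inj (ι : Type v) [Fintype ι] : Injective (signs ι) := by
  rw [injective_iff_map_eq_one]
  intro ε hε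
  funext i
  have h1 := congrArg (fun f : MulAut (Multiplicative (∀ i : ι, ZMod (pr i))) =>
    Multiplicative.toAdd (f (Multiplicative.ofAdd 1)) i) hε
  have h2 : ((ε i : ℤ) : ZMod (pr i)) * 1 = 1 := h1
  rw [mul_one] at h2
  rcases Int.units_eq_one_or (ε i) with h3 | h3
  · exact h3
  · exfalso
    rw [h3] at h2
    have : Fact (2 < pr i) := ⟨pr_gt i⟩
    apply ZMod.neg_one_ne_one (n := pr i)
    simpa using h2

/-- a finite group acts on its sign functions -/
def transl (Q : Type v) [Group Q] : Q →* MulAut (Q → ℤˣ) where
  toFun q :=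
    { toFun := fun f x => f (q⁻¹ * x)
      invFun := fun f x => f (q * x)
      left_inv := by intro f; funext x; simp
      right_inv := by intro f; funext x; simp
      map_mul' := by intro f g; rfl }
  map_one' := by
    apply MulEquiv.ext
    intro f
    funext x
    simp
  map_mul' a b := by
    apply MulEquiv.ext
    intro f
    funext x
    simp [mul_assoc]

theorem transl_inj (Q : Type v) [Group Q] : Injective (transl Q) := by
  classical
  rw [injective_iff_map_eq_one]
  intro q hq
  have h1 := congrArg (fun f : MulAut (Q → ℤˣ) => f (fun x => if x = 1 then -1 else 1) q) hq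
  have h2 : (if q⁻¹ * q = 1 then (-1 : ℤˣ) else 1) = if q = 1 then -1 else 1 := h1
  rw [inv_mul_cancel, if_pos rfl] at h2
  by_contra hne
  rw [if_neg hne] at h2
  exact absurd h2 (by decide)

theorem has_prod (hK : Closed K) (h : Has K (Multiplicative ℤ)) (ι : Type v) [Fintype ι] :
    Has K (Multiplicative (∀ i : ι, ZMod (pr i))) := by
  have hcop : Pairwise (Function.onFun Nat.Coprime (pr : ι → ℕ)) := by
    intro i j hij
    exact (Nat.coprime_primes (pr_prime i) (pr_prime j)).2 (fun h => hij (pr_inj h))
  let e := ZMod.prodEquivPi (pr : ι → ℕ) hcop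
  let f : ℤ →+ (∀ i : ι, ZMod (pr i)) :=
    e.toAddEquiv.toAddMonoidHom.comp (Int.castAddHom (ZMod (∏ i, pr i)))
  have hf : Surjective f := e.surjective.comp (ZMod.intCast_surjective)
  exact has_quot hK h (AddMonoidHom.toMultiplicative f) hf

theorem fin_of_Z (hK : Closed K) (h : Has K (Multiplicative ℤ)) {Q : Type v} [Group Q]
    [Finite Q] : Has K Q := by
  let _ := Fintype.ofFinite Q
  have h1 := has_aut hK (has_prod hK h Q)
  have h2 := has_sub hK h1 (signs Q) (signs_inj Q)
  have h3 := has_aut hK h2
  exact has_sub hK h3 (transl Q) (transl_inj Q)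

end Pool.Agent.Helper480.AC
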