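import Pool.Agent.Helper480.AC.P4
set_option autoImplicit false

universe u v w

open Function

namespace Pool.Agent.Helper480.AC

variable {K : ∀ (G : Type u) [Group G], Prop}

/-- `G` satisfies the Tits alternative: it contains a free group of rank two or has a soluble
subgroup of finite index. -/
def Tits (G : Type u) [Group G] : Prop :=
  (∃ f : FreeGroup Bool →* G, Injective f) ∨
    ∃ H : Subgroup G, H.FiniteIndex ∧ Group.IsSolvable H

theorem tits_of_comm (G : Type u) [CommGroup G] : Tits G :=
  Or.inr ⟨⊤, inferInstance, inferInstance⟩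

theorem tits_ac (hK : Admissible K) {G : Type u} [Group G] (h : K G) (ht : Tits G) :
    AlmostCyclic G := by
  rw [ac_iff]
  rcases ht with ⟨f, hf⟩ | ⟨H, hfi, hs⟩
  · exact absurd (has_sub hK.toClosed (has_of h) f hf) (fun h => free_bool hK h)
  · exact vsol_ac hK (has_of h) H hfi hs

theorem not_ac_tor (G : Type v) [Group G] [Infinite G] (ht : ∀ x : G, IsOfFinOrder x) :
    ¬ AC' G := by
  rintro ⟨c, hc⟩
  have h1 : Finite (Subgroup.zpowers c) := (ht c).finite_zpowers
  have h2 : Finite (G ⧸ Subgroup.zpowers c) := Subgroup.finite_quotient_of_finiteIndex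
  have h3 : Finite G := Finite.of_subgroup_quotient (Subgroup.zpowers c)
  exact not_finite G

/-- the infinite elementary abelian `p`-group of countable rank -/
abbrev Elem (p : ℕ) : Type := Multiplicative (ℕ →₀ ZMod p)

theorem elem_tor (p : ℕ) (x : Elem p) : x ^ p = 1 := by
  apply Multiplicative.toAdd.injective
  change p • Multiplicative.toAdd x = 0
  ext i
  simp

theorem not_ac_elem (p : ℕ) [Fact p.Prime] : ¬ AC' (ULift.{u} (Elem p)) := by
  have hp : p ≠ 0 := (Fact.out : p.Prime).ne_zero
  apply not_ac_tor
  intro x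
  rw [isOfFinOrder_iff_pow_eq_one]
  refine ⟨p, Nat.pos_of_ne_zero hp, ?_⟩
  apply MulEquiv.ulift.injective
  rw [map_pow, elem_tor p, map_one]

theorem has_ulift {G : Type v} [Group G] (hK : Closed K) : Has K G ↔ Has K (ULift.{w} G) := by
  constructor
  · intro h
    exact has_sub hK h (MulEquiv.ulift : ULift.{w} G ≃* G).toMonoidHom (MulEquiv.injective _)
  · intro h
    exact has_sub hK h (MulEquiv.ulift : ULift.{w} G ≃* G).symm.toMonoidHom
      (MulEquiv.injective _)

theorem elem_prime (hK : Admissible K) (p : ℕ) (hp : p.Prime) : ¬ Has K (Elem p) := by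
  intro h
  have : Fact p.Prime := ⟨hp⟩
  exact no_elem hK (ZMod p) h

theorem adm_of (hK : Closed K) (H : Type) [Group H] [Countable H] (h : ¬ Has K H) :
    Admissible K := by
  refine ⟨hK, ULift.{u} H, inferInstance, inferInstance, fun h1 => h ?_⟩
  exact (has_ulift hK).2 (has_of h1)

/-- equivalent forms of admissibility of a closed class -/
theorem tfae (hK : Closed K) : List.TFAE
    [Admissible K,
     ¬ Has K (FreeGroup Bool),
     ¬ Has K (Multiplicative (ℤ × ℤ)),
     ∀ p : ℕ, p.Prime → ¬ Has K (Elem p),
     ∃ p : ℕ, p.Prime ∧ ¬ Has K (Elem p),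
     ∀ (G : Type u) [CommGroup G], K G → AlmostCyclic G,
     ∀ (G : Type u) [Group G], K G → Tits G → AlmostCyclic G] := by
  tfae_have 1 → 2 := fun h h1 => free_bool h h1
  tfae_have 1 → 3 := by
    intro h h1
    obtain ⟨m, n, hmn, h2⟩ := no_Z2 h h1 (Multiplicative.ofAdd (1, 0))
      (Multiplicative.ofAdd (0, 1)) (Commute.all _ _)
    have h3 := congrArg Multiplicative.toAdd h2
    simp at h3
    rcases hmn with h4 | h4
    · exact h4 h3.1
    · exact h4 h3.2
  tfae_have 1 → 4 := fun h p hp => elem_prime h p hp
  tfae_have 4 → 5 := fun h => ⟨2, Nat.prime_two, h 2 Nat.prime_two⟩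
  tfae_have 2 → 1 := by
    intro h
    have : Countable (FreeGroup Bool) := by
      unfold FreeGroup; infer_instance
    exact adm_of hK _ h
  tfae_have 3 → 1 := by
    intro h
    have : Countable (Multiplicative (ℤ × ℤ)) := inferInstanceAs (Countable (ℤ × ℤ))
    exact adm_of hK _ h
  tfae_have 5 → 1 := by
    rintro ⟨p, hp, h⟩
    have : Fact p.Prime := ⟨hp⟩
    have : Countable (Elem p) := inferInstanceAs (Countable (ℕ →₀ ZMod p))
    exact adm_of hK _ h
  tfae_have 1 → 7 := fun h G _ hG ht => tits_ac h hG ht
  tfae_have 7 → 6 := fun h G _ hG => h G hG (tits_of_comm G)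
  tfae_have 6 → 5 := by
    intro h
    refine ⟨2, Nat.prime_two, fun h1 => ?_⟩
    have : Fact (Nat.Prime 2) := ⟨Nat.prime_two⟩
    have h2 : K (ULift.{u} (Elem 2)) := of_has hK ((has_ulift hK).1 h1)
    exact not_ac_elem 2 ((ac_iff _).1 (h _ h2))
  tfae_finish

/-- a class with a member of infinite order contains all finite and all cyclic groups -/
theorem mixed (hK : Closed K) (G : Type u) [Group G] (h : K G) (g : G) (hg : ¬ IsOfFinOrder g)
    (H : Type u) [Group H] (hH : Finite H ∨ IsCyclic H) : K H := by
  have h1 := has_Z hK (has_of h) g hg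
  apply of_has hK
  rcases hH with h2 | h2
  · exact fin_of_Z hK h1
  · exact cyc_of_Z hK h1 h2

/-- unbounded ranks of elementary abelian members give all finite groups -/
theorem rank_bound (hK : Closed K) (Q : Type u) [Group Q] [Finite Q] (hQ : ¬ K Q) (p : ℕ)
    (hp : p.Prime) (n : ℕ) (h : Has K (Multiplicative (Fin n →₀ ZMod p))) : n < Nat.card Q := by
  have : Fact p.Prime := ⟨hp⟩
  let _ := Fintype.ofFinite Q
  by_contra hn
  push Not at hn
  apply hQ
  apply of_has hK
  let j : Q ↪ Fin n :=
    (Finite.equivFin Q).toEmbedding.trans (Fin.castLEEmb hn)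
  let f : (Q →₀ ZMod p) →+ (Fin n →₀ ZMod p) := Finsupp.mapDomain.addMonoidHom j
  have hf : Injective f := Finsupp.mapDomain_injective j.injective
  have h1 : Has K (Multiplicative (Q →₀ ZMod p)) :=
    has_sub hK h (AddMonoidHom.toMultiplicative f) hf
  exact has_sub hK (has_aut hK h1) (regrep Q (ZMod p)) (regrep_inj _ _)

/-- classes of groups satisfying the Tits alternative -/
theorem tits_classes (hK : Closed K) (ht : ∀ (G : Type u) [Group G], K G → Tits G) :
    Admissible K ↔ ((∀ (G : Type u) [Group G], K G → Finite G) ∨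
      ((∀ (G : Type u) [Group G], Finite G ∨ IsCyclic G → K G) ∧
        ∀ (G : Type u) [Group G], K G → AlmostCyclic G)) := by
  constructor
  · intro h
    have hac : ∀ (G : Type u) [Group G], K G → AlmostCyclic G := fun G _ hG =>
      tits_ac h hG (ht G hG)
    by_cases hfin : ∀ (G : Type u) [Group G], K G → Finite G
    · exact Or.inl hfin
    · right
      refine ⟨?_, hac⟩
      push Not at hfin
      obtain ⟨G, _, hG, hinf⟩ := hfin
      obtain ⟨c, hc⟩ := (ac_iff G).1 (hac G hG)
      have hco : ¬ IsOfFinOrder c := by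
        intro hco
        have h1 : Finite (Subgroup.zpowers c) := hco.finite_zpowers
        have h2 : Finite (G ⧸ Subgroup.zpowers c) := Subgroup.finite_quotient_of_finiteIndex
        exact (not_finite_iff_infinite.2 inferInstance)
          (Finite.of_subgroup_quotient (Subgroup.zpowers c))
      intro H _ hH
      exact mixed hK G hG c hco H hH
  · intro h
    have hac : ∀ (G : Type u) [Group G], K G → AlmostCyclic G := by
      rcases h with h | ⟨_, h⟩
      · intro G _ hG
        have := h G hG
        exact ⟨⊥, inferInstance, inferInstance⟩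
      · exact h
    apply ((tfae hK).out 0 5).2
    intro G _ hG
    exact hac G hG

end Pool.Agent.Helper480.AC
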