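import Pool.Agent.Helper480.AC.P5
set_option autoImplicit false

universe u v w

open Function

namespace Pool.Agent.Helper480.AC

/-- finite groups, and groups with a homomorphism to `ℤ` whose kernel is a finite `π`-group -/
def Kpi (π : Set Nat.Primes) (G : Type u) [Group G] : Prop :=
  Finite G ∨ ∃ f : G →* Multiplicative ℤ, Finite f.ker ∧
    ∀ p : Nat.Primes, (p : ℕ) ∣ Nat.card f.ker → p ∈ π

theorem kpi_sub (π : Set Nat.Primes) {G : Type v} {H : Type w} [Group G] [Group H]
    (h : Kpi π G) (i : H →* G) (hi : Injective i) : Kpi π H := by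
  rcases h with h | ⟨f, hf, hp⟩
  · exact Or.inl (Finite.of_injective i hi)
  · right
    let j : (f.comp i).ker →* f.ker :=
      { toFun := fun x => ⟨i x, x.2⟩
        map_one' := by ext; simp
        map_mul' := by intro x y; ext; simp }
    have hj : Injective j := by
      intro x y hxy
      apply Subtype.ext
      apply hi
      exact congrArg Subtype.val hxy
    refine ⟨f.comp i, Finite.of_injective j hj, ?_⟩
    intro p hpd
    exact hp p (hpd.trans (Subgroup.card_dvd_of_injective j hj))

theorem fin_index_cyc {A : Type v} [Group A] [IsCyclic A] (H : Subgroup A) (a : A) (ha : a ∈ H)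
    (hinf : a ≠ 1) : H.FiniteIndex := by
  obtain ⟨g, hg⟩ := IsCyclic.exists_generator (α := A)
  obtain ⟨k, hk⟩ := Subgroup.mem_zpowers_iff.1 (hg a)
  have hk0 : k ≠ 0 := by
    rintro rfl
    exact hinf (by rw [← hk, zpow_zero])
  have hcomm : ∀ x y : A, x * y = y * x := by
    intro x y
    obtain ⟨m, rfl⟩ := Subgroup.mem_zpowers_iff.1 (hg x)
    obtain ⟨n, rfl⟩ := Subgroup.mem_zpowers_iff.1 (hg y)
    rw [← zpow_add, ← zpow_add, add_comm]
  have hn : H.Normal := ⟨fun n hn x => by rw [hcomm x n, mul_assoc, mul_inv_cancel, mul_one]; exact hn⟩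
  have h1 : IsOfFinOrder (QuotientGroup.mk g : A ⧸ H) := by
    rw [isOfFinOrder_iff_zpow_eq_one]
    refine ⟨k, hk0, ?_⟩
    rw [← QuotientGroup.mk_zpow, hk]
    exact (QuotientGroup.eq_one_iff a).2 ha
  have h2 : Finite (Subgroup.zpowers (QuotientGroup.mk g : A ⧸ H)) := h1.finite_zpowers
  have h3 : Surjective (fun x : Subgroup.zpowers (QuotientGroup.mk g : A ⧸ H) => (x : A ⧸ H)) := by
    intro y
    obtain ⟨x, rfl⟩ := QuotientGroup.mk_surjective y
    obtain ⟨m, rfl⟩ := Subgroup.mem_zpowers_iff.1 (hg x)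
    exact ⟨⟨QuotientGroup.mk (g ^ m), ⟨m, by simp⟩⟩, rfl⟩
  have : Finite (A ⧸ H) := Finite.of_surjective _ h3
  exact Subgroup.finiteIndex_of_finite_quotient

theorem int_tf (x : Multiplicative ℤ) (h : IsOfFinOrder x) : x = 1 := by
  rw [isOfFinOrder_iff_pow_eq_one] at h
  obtain ⟨n, hn, h1⟩ := h
  have h2 : n • Multiplicative.toAdd x = 0 := congrArg Multiplicative.toAdd h1
  have h3 : Multiplicative.toAdd x = 0 := by
    rw [nsmul_eq_mul] at h2
    rcases mul_eq_zero.1 h2 with h4 | h4
    · exact absurd (by exact_mod_cast h4) hn.ne'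
    · exact h4
  exact h3

theorem int_cyc : IsCyclic (Multiplicative ℤ) := inferInstance

theorem quo_cyc {G : Type v} [Group G] (f : G →* Multiplicative ℤ) : IsCyclic (G ⧸ f.ker) :=
  isCyclic_of_injective (QuotientGroup.kerLift f) (QuotientGroup.kerLift_injective f)

theorem kpi_quot (π : Set Nat.Primes) {G : Type v} {Q : Type w} [Group G] [Group Q]
    (h : Kpi π G) (q : G →* Q) (hq : Surjective q) : Kpi π Q := by
  rcases h with h | ⟨f, hf, hp⟩
  · exact Or.inl (Finite.of_surjective q hq)
  by_cases hQ : Finite Q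
  · exact Or.inl hQ
  right
  have hle : q.ker ≤ f.ker := by
    intro n hn
    by_contra hfn
    apply hQ
    have h1 : (Subgroup.zpowers (QuotientGroup.mk n : G ⧸ f.ker)).FiniteIndex := by
      have := quo_cyc f
      refine fin_index_cyc _ (QuotientGroup.mk n) (Subgroup.mem_zpowers _) ?_
      rwa [Ne, QuotientGroup.eq_one_iff]
    have h2 := ext_fin f.ker n h1
    have h3 : q.ker.FiniteIndex := by
      have hle' : Subgroup.zpowers n ≤ q.ker := by
        rw [Subgroup.zpowers_le]; exact hn
      exact Subgroup.finiteIndex_of_le hle'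
    have h4 : Finite (G ⧸ q.ker) := Subgroup.finite_quotient_of_finiteIndex
    exact Finite.of_equiv _ (QuotientGroup.quotientKerEquivOfSurjective q hq).toEquiv
  let e := QuotientGroup.quotientKerEquivOfSurjective q hq
  let f' : Q →* Multiplicative ℤ := (QuotientGroup.lift q.ker f hle).comp e.symm.toMonoidHom
  have hf' : ∀ x, f' (q x) = f x := by
    intro x
    have h1 : e.symm (q x) = QuotientGroup.mk x := by
      rw [MulEquiv.symm_apply_eq]; rfl
    change (QuotientGroup.lift q.ker f hle) (e.symm (q x)) = f x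
    rw [h1]; rfl
  let j : f.ker →* f'.ker :=
    { toFun := fun x => ⟨q x, by rw [MonoidHom.mem_ker, hf']; exact x.2⟩
      map_one' := by ext; simp
      map_mul' := by intro x y; ext; simp }
  have hj : Surjective j := by
    rintro ⟨y, hy⟩
    obtain ⟨x, rfl⟩ := hq y
    rw [MonoidHom.mem_ker, hf'] at hy
    exact ⟨⟨x, hy⟩, rfl⟩
  refine ⟨f', Finite.of_surjective j hj, ?_⟩
  intro p hpd
  exact hp p (hpd.trans (Subgroup.card_dvd_of_surjective j hj))

theorem kpi_aut (π : Set Nat.Primes) {G : Type v} [Group G]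
    (h : Kpi π G) : Finite (MulAut G) := by
  by_cases hG : Finite G
  · exact Finite.of_injective (fun φ : MulAut G => (φ : G → G)) DFunLike.coe_injective
  rcases h with h | ⟨f, hf, hp⟩
  · exact absurd h hG
  obtain ⟨t', ht'⟩ := (quo_cyc f).exists_generator
  obtain ⟨t, rfl⟩ := QuotientGroup.mk_surjective t'
  have hdec : ∀ x : G, ∃ (k : ℤ) (y : G), y ∈ f.ker ∧ x = t ^ k * y := by
    intro x
    obtain ⟨k, hk⟩ := Subgroup.mem_zpowers_iff.1 (ht' (QuotientGroup.mk x))
    refine ⟨k, t ^ (-k) * x, ?_, by simp⟩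
    rw [← QuotientGroup.eq_one_iff, QuotientGroup.mk_mul, ← hk, QuotientGroup.mk_zpow, ← zpow_add]
    simp
  have hchar : ∀ (φ : MulAut G) (x : G), x ∈ f.ker → φ x ∈ f.ker := by
    intro φ x hx
    have h1 : IsOfFinOrder (⟨x, hx⟩ : f.ker) := isOfFinOrder_of_finite _
    have h2 : IsOfFinOrder x := f.ker.subtype.isOfFinOrder h1
    have h3 : IsOfFinOrder (f (φ x)) := f.isOfFinOrder (φ.toMonoidHom.isOfFinOrder h2)
    exact int_tf _ h3
  have hcoef : ∀ (φ : MulAut G) (x : G) (k : ℤ), f x = f t ^ k → f (φ x) = f (φ t) ^ k := by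
    intro φ x k hk
    have h1 : t ^ (-k) * x ∈ f.ker := by
      rw [MonoidHom.mem_ker, map_mul, map_zpow, hk, ← zpow_add]; simp
    have h2 := hchar φ _ h1
    rw [MonoidHom.mem_ker, map_mul, map_mul, map_zpow, map_zpow] at h2
    rw [zpow_neg, inv_mul_eq_one] at h2
    exact h2.symm
  have hex : ∀ x : G, ∃ k : ℤ, f x = f t ^ k := by
    intro x
    obtain ⟨k, y, hy, rfl⟩ := hdec x
    refine ⟨k, ?_⟩
    rw [map_mul, map_zpow, (MonoidHom.mem_ker).1 hy, mul_one]
  let S : Set G := {x | f x = f t ∨ f x = (f t)⁻¹}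
  have hSfin : Finite S := by
    have h1 : (Set.range (fun y : f.ker => (y : G) * t) ∪
        Set.range (fun y : f.ker => (y : G) * t⁻¹)).Finite :=
      (Set.finite_range _).union (Set.finite_range _)
    refine (h1.subset ?_).to_subtype
    rintro x (hx | hx)
    · left
      exact ⟨⟨x * t⁻¹, by rw [MonoidHom.mem_ker, map_mul, map_inv, hx, mul_inv_cancel]⟩, by simp⟩
    · right
      exact ⟨⟨x * t, by rw [MonoidHom.mem_ker, map_mul, hx, inv_mul_cancel]⟩, by simp⟩
  have hS : ∀ φ : MulAut G, φ t ∈ S := by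
    intro φ
    obtain ⟨a, ha⟩ := hex (φ t)
    obtain ⟨b, hb⟩ := hex (φ⁻¹ t)
    have h1 := hcoef φ (φ⁻¹ t) b hb
    rw [MulAut.apply_inv_self, ha, ← zpow_mul] at h1
    by_cases hft : f t = 1
    · left
      rw [ha, hft, one_zpow]
    · have h2 : a * b = 1 := by
        by_contra hne
        apply hft
        apply int_tf
        rw [isOfFinOrder_iff_zpow_eq_one]
        refine ⟨a * b - 1, sub_ne_zero.2 hne, ?_⟩
        rw [zpow_sub, ← h1]; simp
      rcases Int.isUnit_iff.1 (IsUnit.of_mul_eq_one _ h2) with h3 | h3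
      · left; rw [ha, h3, zpow_one]
      · right; rw [ha, h3, zpow_neg, zpow_one]
  let Φ : MulAut G → (f.ker → f.ker) × S := fun φ =>
    (fun x => ⟨φ x, hchar φ x x.2⟩, ⟨φ t, hS φ⟩)
  refine Finite.of_injective Φ ?_
  intro φ ψ hφψ
  have h1 := congrArg Prod.fst hφψ
  have h2 : φ t = ψ t := congrArg (fun z => ((Prod.snd z : S) : G)) hφψ
  apply MulEquiv.ext
  intro x
  obtain ⟨k, y, hy, rfl⟩ := hdec x
  have h3 : φ y = ψ y := congrArg Subtype.val (congrFun h1 ⟨y, hy⟩)
  rw [map_mul, map_mul, map_zpow, map_zpow, h2, h3]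

theorem kpi_closed (π : Set Nat.Primes) : Closed (fun (G : Type u) [Group G] => Kpi π G) where
  iso := fun G H _ _ ⟨e⟩ h => kpi_sub π h e.symm.toMonoidHom e.symm.injective
  sub := fun G _ H h => kpi_sub π h H.subtype H.subtype_injective
  quot := fun G Q _ _ f hf h => kpi_quot π h f hf
  aut := fun G _ h => Or.inl (kpi_aut π h)

theorem kpi_ac (π : Set Nat.Primes) (G : Type u) [Group G] (h : Kpi π G) : AlmostCyclic G := by
  rcases h with h | ⟨f, hf, hp⟩
  · exact ⟨⊥, inferInstance, inferInstance⟩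
  · rw [ac_iff]
    obtain ⟨t', ht'⟩ := (quo_cyc f).exists_generator
    obtain ⟨t, rfl⟩ := QuotientGroup.mk_surjective t'
    refine ⟨t, ext_fin f.ker t ?_⟩
    have : Subgroup.zpowers (QuotientGroup.mk t : G ⧸ f.ker) = ⊤ := by
      rw [Subgroup.eq_top_iff']; exact ht'
    rw [this]
    infer_instance

theorem kpi_adm (π : Set Nat.Primes) : Admissible (fun (G : Type u) [Group G] => Kpi π G) := by
  apply ((tfae (kpi_closed π)).out 0 5).2
  intro G _ hG
  exact kpi_ac π G hG

theorem kpi_cyc (π : Set Nat.Primes) (G : Type u) [Group G] (h : Finite G ∨ IsCyclic G) :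
    Kpi π G := by
  rcases h with h | h
  · exact Or.inl h
  · by_cases hfin : Finite G
    · exact Or.inl hfin
    right
    obtain ⟨g, hg⟩ := h.exists_generator
    have hg0 : ¬ IsOfFinOrder g := by
      intro h0
      have h1 : Finite (Subgroup.zpowers g) := h0.finite_zpowers
      apply hfin
      exact Finite.of_surjective (fun x : Subgroup.zpowers g => (x : G))
        (fun x => ⟨⟨x, hg x⟩, rfl⟩)
    have hbij : Bijective (zpowersHom G g) := by
      constructor
      · rw [injective_iff_map_eq_one]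
        intro n hn
        by_contra hne
        apply hg0
        rw [isOfFinOrder_iff_zpow_eq_one]
        exact ⟨n.toAdd, hne, hn⟩
      · intro x
        obtain ⟨k, hk⟩ := Subgroup.mem_zpowers_iff.1 (hg x)
        exact ⟨Multiplicative.ofAdd k, hk⟩
    let e := MulEquiv.ofBijective (zpowersHom G g) hbij
    have hker : e.symm.toMonoidHom.ker = ⊥ :=
      (MonoidHom.ker_eq_bot_iff _).2 e.symm.injective
    refine ⟨e.symm.toMonoidHom, ?_, ?_⟩
    · rw [hker]; infer_instance
    · intro p hp
      rw [hker] at hp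
      simp only [Subgroup.card_bot, Nat.dvd_one] at hp
      exact absurd hp p.2.one_lt.ne'

theorem kpi_test (π : Set Nat.Primes) (p : Nat.Primes) :
    Kpi π (ULift.{u} (Multiplicative ℤ × Multiplicative (ZMod p))) ↔ p ∈ π := by
  have hfp : Fact (p : ℕ).Prime := ⟨p.2⟩
  constructor
  · rintro (h | ⟨f, hf, hp⟩)
    · exfalso
      have h1 : Infinite (ULift.{u} (Multiplicative ℤ × Multiplicative (ZMod p))) := inferInstance
      exact not_finite (ULift.{u} (Multiplicative ℤ × Multiplicative (ZMod p)))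
    · apply hp
      let x : ULift.{u} (Multiplicative ℤ × Multiplicative (ZMod p)) :=
        ⟨(1, Multiplicative.ofAdd 1)⟩
      have hxp : x ^ (p : ℕ) = 1 := by
        apply ULift.ext
        change ((1 : Multiplicative ℤ), Multiplicative.ofAdd (1 : ZMod p)) ^ (p : ℕ) = 1
        rw [Prod.pow_mk, one_pow, ← ofAdd_nsmul]
        simp
      have hx1 : x ≠ 1 := by
        intro h
        have h1 := congrArg (fun z : ULift.{u} (Multiplicative ℤ × Multiplicative (ZMod p)) =>
          Multiplicative.toAdd z.down.2) h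
        have h2 : (1 : ZMod p) = 0 := h1
        exact one_ne_zero h2
      have hxk : x ∈ f.ker := by
        apply int_tf
        exact f.isOfFinOrder (isOfFinOrder_iff_pow_eq_one.2 ⟨p, p.2.pos, hxp⟩)
      have ho : orderOf (⟨x, hxk⟩ : f.ker) = p := by
        rw [Subgroup.orderOf_mk]
        exact orderOf_eq_prime hxp hx1
      have h9 := orderOf_dvd_natCard (⟨x, hxk⟩ : f.ker)
      rwa [ho] at h9
  · intro hp
    right
    let f : ULift.{u} (Multiplicative ℤ × Multiplicative (ZMod p)) →* Multiplicative ℤ :=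
      (MonoidHom.fst _ _).comp (MulEquiv.ulift).toMonoidHom
    let j : f.ker →* Multiplicative (ZMod p) :=
      (MonoidHom.snd _ _).comp ((MulEquiv.ulift).toMonoidHom.comp f.ker.subtype)
    have hj : Injective j := by
      rw [injective_iff_map_eq_one]
      rintro ⟨x, hx⟩ hx2
      apply Subtype.ext
      apply ULift.ext
      exact Prod.ext hx hx2
    refine ⟨f, Finite.of_injective j hj, ?_⟩
    intro r hr
    have h1 : (r : ℕ) ∣ p := by
      have h2 := hr.trans (Subgroup.card_dvd_of_injective j hj)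
      have h3 : Nat.card (Multiplicative (ZMod p)) = p := by
        change Nat.card (ZMod p) = p
        simp
      rwa [h3] at h2
    have h4 : (r : ℕ) = p := (Nat.prime_dvd_prime_iff_eq r.2 p.2).1 h1
    have h5 : r = p := Subtype.ext h4
    rw [h5]; exact hp

end Pool.Agent.Helper480.AC
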