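import Pool.Agent.Helper480.AC.P6
set_option autoImplicit false

universe u v w

open Function

namespace Pool.Agent.Helper480.AC

variable {K : ∀ (G : Type u) [Group G], Prop}

/-- commutativity is inherited -/
theorem has_comm (hc : ∀ (G : Type u) [Group G], K G → ∀ x y : G, x * y = y * x)
    {H : Type v} [Group H] (h : Has K H) (x y : H) : x * y = y * x := by
  obtain ⟨G, _, hG, ⟨e⟩⟩ := h
  apply e.symm.injective
  rw [map_mul, map_mul]
  exact hc G hG _ _

/-- swap of the two coordinates -/
def sw (p : ℕ) : (ZMod p × ZMod p) ≃+ (ZMod p × ZMod p) where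
  toFun v := (v.2, v.1)
  invFun v := (v.2, v.1)
  left_inv v := rfl
  right_inv v := rfl
  map_add' v w := rfl

/-- a shear -/
def shr (p : ℕ) : (ZMod p × ZMod p) ≃+ (ZMod p × ZMod p) where
  toFun v := (v.1 + v.2, v.2)
  invFun v := (v.1 - v.2, v.2)
  left_inv v := by ext <;> simp
  right_inv v := by ext <;> simp
  map_add' v w := by ext <;> simp; ring

theorem no_pair (hK : Closed K)
    (hc : ∀ (G : Type u) [Group G], K G → ∀ x y : G, x * y = y * x) (p : ℕ) (hp : p.Prime) :
    ¬ Has K (Multiplicative (ZMod p × ZMod p)) := by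
  intro h
  have : Fact p.Prime := ⟨hp⟩
  have h1 := has_comm hc (has_aut hK h) (AddEquiv.toMultiplicative (sw p))
    (AddEquiv.toMultiplicative (shr p))
  have h2 := congrArg (fun f : MulAut (Multiplicative (ZMod p × ZMod p)) =>
    (Multiplicative.toAdd (f (Multiplicative.ofAdd (0, 1)))).1) h1
  have h3 : (1 : ZMod p) = 1 + 0 := h2
  have h4 := congrArg (fun f : MulAut (Multiplicative (ZMod p × ZMod p)) =>
    (Multiplicative.toAdd (f (Multiplicative.ofAdd (1, 0)))).1) h1
  have h5 : (0 : ZMod p) = 0 + 1 := h4
  simp at h5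

/-- the elements of exponent `p` -/
theorem socle_card (hK : Closed K)
    (hnp : ∀ p : ℕ, p.Prime → ¬ Has K (Multiplicative (ZMod p × ZMod p))) {A : Type v} [CommGroup A]
    [Finite A] (h : Has K A) (p : ℕ) (hp : p.Prime) : Nat.card {x : A | x ^ p = 1} ≤ p := by
  have : Fact p.Prime := ⟨hp⟩
  let V : Subgroup A := (powMonoidHom p : A →* A).ker
  have hV : ∀ x : V, x ^ p = 1 := by
    intro x
    have := x.2
    rw [MonoidHom.mem_ker] at this
    exact Subtype.ext this
  let _ : Module (ZMod p) (Additive V) := AddCommGroup.zmodModule (n := p) (by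
    intro x
    exact hV x.toMul)
  by_contra hcard
  push Not at hcard
  have hcard' : p < Nat.card (Additive V) := hcard
  have hfin : Finite (Additive V) := inferInstanceAs (Finite V)
  have h1 : ∃ x : Additive V, x ≠ 0 := by
    by_contra hcon
    push Not at hcon
    have : Subsingleton (Additive V) := ⟨fun a b => by rw [hcon a, hcon b]⟩
    have := Finite.card_le_one_iff_subsingleton.2 this
    have := hp.two_le
    omega
  obtain ⟨x, hx⟩ := h1
  have h2 : ∃ y : Additive V, ∀ a : ZMod p, a • x ≠ y := by
    by_contra hcon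
    push Not at hcon
    have hs : Surjective (fun a : ZMod p => a • x) := hcon
    have h3 := Nat.card_le_card_of_surjective _ hs
    rw [Nat.card_zmod] at h3
    omega
  obtain ⟨y, hy⟩ := h2
  have hli := (LinearIndependent.pair_iff' (K := ZMod p) hx).2 hy
  rw [LinearIndependent.pair_iff] at hli
  let f : (ZMod p × ZMod p) →+ Additive V :=
    { toFun := fun v => v.1 • x + v.2 • y
      map_zero' := by simp
      map_add' := by
        intro v w
        simp only [Prod.fst_add, Prod.snd_add, add_smul]
        abel }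
  have hf : Injective f := by
    rw [injective_iff_map_eq_zero]
    intro v hv
    have := hli v.1 v.2 hv
    exact Prod.ext this.1 this.2
  have hf2 : Injective (V.subtype.comp (AddMonoidHom.toMultiplicativeLeft f)) := by
    exact V.subtype_injective.comp hf
  exact hnp p hp (has_sub hK h _ hf2)

theorem fin_cyc (hK : Closed K)
    (hnp : ∀ p : ℕ, p.Prime → ¬ Has K (Multiplicative (ZMod p × ZMod p))) {A : Type v} [CommGroup A]
    [Finite A] (h : Has K A) : IsCyclic A := by
  classical
  let _ := Fintype.ofFinite A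
  apply isCyclic_of_card_pow_eq_one_le
  intro n hn
  have key : ∀ n : ℕ, n ≠ 0 → (Finset.univ.filter (fun a : A => a ^ n = 1)).card ≤ n := by
    intro n
    refine induction_on_primes
      (motive := fun n => n ≠ 0 → (Finset.univ.filter (fun a : A => a ^ n = 1)).card ≤ n)
      ?_ ?_ ?_ n
    · intro h; exact absurd rfl h
    · intro _
      rw [Finset.card_le_one]
      intro x hx y hy
      simp only [Finset.mem_filter, Finset.mem_univ, true_and, pow_one] at hx hy
      rw [hx, hy]
    · intro p a hp ih hpa
      have ha : a ≠ 0 := right_ne_zero_of_mul hpa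
      have hsoc : (Finset.univ.filter (fun z : A => z ^ p = 1)).card ≤ p := by
        have h1 := socle_card hK hnp h p hp
        have h2 : Nat.card {x : A // x ^ p = 1} =
            (Finset.univ.filter (fun z : A => z ^ p = 1)).card :=
          Nat.subtype_card _ (by simp)
        rw [← h2]
        exact h1
      have h1 := Finset.card_le_mul_card_image (f := fun x : A => x ^ p)
        (Finset.univ.filter (fun x : A => x ^ (p * a) = 1)) p (by
          intro b hb
          obtain ⟨x0, hx0, rfl⟩ := Finset.mem_image.1 hb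
          refine le_trans (Finset.card_le_card_of_injOn (fun x => x0⁻¹ * x) ?_ ?_) hsoc
          · intro x hx
            simp only [Finset.coe_filter, Finset.mem_filter, Finset.mem_univ, true_and,
              Set.mem_setOf_eq] at hx ⊢
            rw [mul_pow, hx.2, inv_pow, inv_mul_cancel]
          · intro x _ y _ hxy
            exact mul_left_cancel hxy)
      refine h1.trans (Nat.mul_le_mul_left p ?_)
      refine (Finset.card_le_card ?_).trans (ih ha)
      intro y hy
      obtain ⟨x, hx, rfl⟩ := Finset.mem_image.1 hy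
      simp only [Finset.mem_filter, Finset.mem_univ, true_and] at hx ⊢
      rw [← pow_mul]; exact hx
  exact key n hn.ne'

/-- members of an admissible class of abelian groups are finite -/
theorem comm_fin (hK : Admissible K)
    (hc : ∀ (G : Type u) [Group G], K G → ∀ x y : G, x * y = y * x) (G : Type u) [Group G]
    (h : K G) : Finite G := by
  by_contra hinf
  let _ : CommGroup G := { (inferInstance : Group G) with mul_comm := hc G h }
  obtain ⟨c, hc'⟩ := comm_ac hK (has_of h)
  have hco : ¬ IsOfFinOrder c := by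
    intro hco
    have h1 : Finite (Subgroup.zpowers c) := hco.finite_zpowers
    have h2 : Finite (G ⧸ Subgroup.zpowers c) := Subgroup.finite_quotient_of_finiteIndex
    exact hinf (Finite.of_subgroup_quotient (Subgroup.zpowers c))
  have h1 : K (ULift.{u} (Equiv.Perm (Fin 3))) :=
    mixed hK.toClosed G h c hco _ (Or.inl inferInstance)
  have h2 := hc _ h1 ⟨Equiv.swap 0 1⟩ ⟨Equiv.swap 1 2⟩
  have h3 : (Equiv.swap (0 : Fin 3) 1) * Equiv.swap 1 2 = Equiv.swap 1 2 * Equiv.swap 0 1 :=
    congrArg ULift.down h2
  revert h3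
  decide

/-- orders `n` for which the automorphism group of the cyclic group of order `n` is cyclic -/
def Shape (n : ℕ) : Prop :=
  n = 1 ∨ n = 2 ∨ n = 4 ∨ ∃ p m : ℕ, p.Prime ∧ Odd p ∧ 1 ≤ m ∧ (n = p ^ m ∨ n = 2 * p ^ m)

/-- classification of the admissible classes of abelian groups -/
theorem abelian_classes (hiso : ∀ (G H : Type u) [Group G] [Group H], Nonempty (G ≃* H) → K G → K H)
    (hc : ∀ (G : Type u) [Group G], K G → ∀ x y : G, x * y = y * x) :
    Admissible K ↔ ∃ N : Set ℕ, 0 ∉ N ∧ (∀ n ∈ N, ∀ d, d ∣ n → d ∈ N) ∧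
      (∀ n ∈ N, n.totient ∈ N) ∧ (∀ n ∈ N, Shape n) ∧
      ∀ (G : Type u) [Group G], K G ↔ IsCyclic G ∧ Nat.card G ∈ N := by
  constructor
  · intro hA
    have hK := hA.toClosed
    have hcyc : ∀ (G : Type u) [Group G], K G → IsCyclic G ∧ Finite G := by
      intro G _ hG
      have hfin := comm_fin hA hc G hG
      let _ : CommGroup G := { (inferInstance : Group G) with mul_comm := hc G hG }
      exact ⟨fin_cyc hK (no_pair hK hc) (has_of hG), hfin⟩
    have hz : ∀ (G : Type u) [Group G], IsCyclic G →
        Has K (Multiplicative (ZMod (Nat.card G))) → K G := by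
      intro G _ hG h
      apply of_has hK
      exact has_sub hK h (zmodCyclicMulEquiv hG).symm.toMonoidHom
        (zmodCyclicMulEquiv hG).symm.injective
    have hz' : ∀ (G : Type u) [Group G], K G → Has K (Multiplicative (ZMod (Nat.card G))) := by
      intro G _ hG
      exact has_sub hK (has_of hG) (zmodCyclicMulEquiv (hcyc G hG).1).toMonoidHom
        (zmodCyclicMulEquiv (hcyc G hG).1).injective
    refine ⟨{n | 0 < n ∧ Has K (Multiplicative (ZMod n))}, ?_, ?_, ?_, ?_, ?_⟩
    · rintro ⟨h, _⟩
      exact lt_irrefl _ h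
    · rintro n ⟨hn, h⟩ d hd
      refine ⟨Nat.pos_of_dvd_of_pos hd hn, ?_⟩
      exact has_quot hK h (AddMonoidHom.toMultiplicative (ZMod.castHom hd (ZMod d)).toAddMonoidHom)
        (ZMod.castHom_surjective hd)
    · rintro n ⟨hn, h⟩
      refine ⟨Nat.totient_pos.2 hn, ?_⟩
      have : NeZero n := ⟨hn.ne'⟩
      have h1 : Has K (MulAut (Multiplicative (ZMod n))) := has_aut hK h
      obtain ⟨G, _, hG, ⟨e⟩⟩ := h1
      have h2 := hz' G hG
      have h3 : Nat.card G = n.totient := by
        rw [Nat.card_congr e.toEquiv]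
        have : Finite (Multiplicative (ZMod n)) := inferInstanceAs (Finite (ZMod n))
        rw [IsCyclic.card_mulAut]
        congr 1
        change Nat.card (ZMod n) = n
        simp
      rwa [h3] at h2
    · rintro n ⟨hn, h⟩
      have : NeZero n := ⟨hn.ne'⟩
      obtain ⟨G, _, hG, ⟨e⟩⟩ := has_aut hK h
      have hGc := (hcyc G hG).1
      have e2 : MulAut (Multiplicative (ZMod n)) ≃* (ZMod n)ˣ := by
        have h3 := IsCyclic.mulAutMulEquiv (Multiplicative (ZMod n))
        have h4 : Nat.card (Multiplicative (ZMod n)) = n := by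
          change Nat.card (ZMod n) = n
          simp
        rwa [h4] at h3
      have h5 : IsCyclic (ZMod n)ˣ :=
        isCyclic_of_surjective (e.trans e2) (e.trans e2).surjective
      rw [ZMod.isCyclic_units_iff] at h5
      rcases h5 with h5 | h5 | h5 | h5 | h5
      · exact absurd h5 hn.ne'
      · exact Or.inl h5
      · exact Or.inr (Or.inl h5)
      · exact Or.inr (Or.inr (Or.inl h5))
      · exact Or.inr (Or.inr (Or.inr h5))
    · intro G _
      constructor
      · intro hG
        have := (hcyc G hG).2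
        exact ⟨(hcyc G hG).1, Nat.card_pos, hz' G hG⟩
      · rintro ⟨h1, _, h2⟩
        exact hz G h1 h2
  · rintro ⟨N, h0, hdiv, htot, hsh, hKN⟩
    have hfin : ∀ (G : Type u) [Group G], K G → Finite G := by
      intro G _ hG
      apply Nat.finite_of_card_ne_zero
      intro h
      exact h0 (h ▸ ((hKN G).1 hG).2)
    have hK : Closed K := by
      refine ⟨hiso, ?_, ?_, ?_⟩
      · intro G _ H hG
        have := ((hKN G).1 hG).1
        exact (hKN H).2 ⟨inferInstance, hdiv _ ((hKN G).1 hG).2 _ (Subgroup.card_subgroup_dvd_card H)⟩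
      · intro G Q _ _ f hf hG
        have := ((hKN G).1 hG).1
        exact (hKN Q).2 ⟨isCyclic_of_surjective f hf,
          hdiv _ ((hKN G).1 hG).2 _ (Subgroup.card_dvd_of_surjective f hf)⟩
      · intro G _ hG
        have hcy := ((hKN G).1 hG).1
        have := hfin G hG
        refine (hKN _).2 ⟨?_, ?_⟩
        · have h1 : IsCyclic (ZMod (Nat.card G))ˣ := by
            rw [ZMod.isCyclic_units_iff]
            exact Or.inr (hsh _ ((hKN G).1 hG).2)
          exact isCyclic_of_surjective (IsCyclic.mulAutMulEquiv G).symm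
            (IsCyclic.mulAutMulEquiv G).symm.surjective
        · rw [IsCyclic.card_mulAut]
          exact htot _ ((hKN G).1 hG).2
    apply ((tfae hK).out 0 5).2
    intro G _ hG
    have := hfin G hG
    exact ⟨⊥, inferInstance, inferInstance⟩

/-! ### nilpotent groups -/

theorem has_nil (hn : ∀ (G : Type u) [Group G], K G → Group.IsNilpotent G)
    {H : Type v} [Group H] (h : Has K H) : Group.IsNilpotent H := by
  obtain ⟨G, _, hG, ⟨e⟩⟩ := h
  have := hn G hG
  exact Group.nilpotent_of_surjective e.toMonoidHom e.surjective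

theorem nil_inv {G : Type v} [Group G] [Group.IsNilpotent G] (s t : G) (k : ℕ)
    (hst : s * t * s⁻¹ = t⁻¹) (ht : t ^ (2 * k + 1) = 1) : t = 1 := by
  obtain ⟨n, hn⟩ := Subgroup.nilpotent_iff_lowerCentralSeries.1
    (inferInstance : Group.IsNilpotent G)
  have key : ∀ m, t ∈ Subgroup.lowerCentralSeries (⊤ : Subgroup G) m := by
    intro m
    induction m with
    | zero => simp
    | succ m ih =>
      have h1 : t * s * t⁻¹ * s⁻¹ ∈ Subgroup.lowerCentralSeries (⊤ : Subgroup G) (m + 1) :=
        Subgroup.commutator_mem_commutator ih (Subgroup.mem_top s)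
      have h2 : t * s * t⁻¹ * s⁻¹ = t ^ 2 := by
        have h3 : s * t⁻¹ * s⁻¹ = t := by
          have := congrArg (fun x => x⁻¹) hst
          simpa [mul_assoc] using this
        calc t * s * t⁻¹ * s⁻¹ = t * (s * t⁻¹ * s⁻¹) := by group
          _ = t * t := by rw [h3]
          _ = t ^ 2 := (pow_two t).symm
      rw [h2] at h1
      have h4 : t = ((t ^ 2) ^ k)⁻¹ := by
        rw [← pow_mul, eq_inv_iff_mul_eq_one, ← pow_succ']
        exact ht
      rw [h4]
      exact Subgroup.inv_mem _ (Subgroup.pow_mem _ h1 k)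
  have := key n
  rw [hn, Subgroup.mem_bot] at this
  exact this

/-- `(x, y) ↦ (x, -y)` -/
def ng (p : ℕ) : (ZMod p × ZMod p) ≃+ (ZMod p × ZMod p) where
  toFun v := (v.1, -v.2)
  invFun v := (v.1, -v.2)
  left_inv v := by ext <;> simp
  right_inv v := by ext <;> simp
  map_add' v w := by ext <;> simp; ring

/-- `(x, y) ↦ (y, x + y)` -/
def fb (p : ℕ) : (ZMod p × ZMod p) ≃+ (ZMod p × ZMod p) where
  toFun v := (v.2, v.1 + v.2)
  invFun v := (v.2 - v.1, v.1)
  left_inv v := by ext <;> simp
  right_inv v := by ext <;> simp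
  map_add' v w := by ext <;> simp; ring

theorem shr_pow (p n : ℕ) (v : ZMod p × ZMod p) :
    ((AddEquiv.toMultiplicative (shr p) : MulAut (Multiplicative (ZMod p × ZMod p))) ^ n)
      (Multiplicative.ofAdd v) = Multiplicative.ofAdd (v.1 + n * v.2, v.2) := by
  induction n generalizing v with
  | zero => simp
  | succ n ih =>
    rw [pow_succ, MulAut.mul_apply]
    have h1 : (AddEquiv.toMultiplicative (shr p) : MulAut (Multiplicative (ZMod p × ZMod p)))
      (Multiplicative.ofAdd v) = Multiplicative.ofAdd (v.1 + v.2, v.2) := rfl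
    rw [h1, ih]
    push_cast
    congr 2
    ring

theorem two1 : ∀ v : ZMod 2 × ZMod 2, sw 2 (fb 2 ((sw 2).symm v)) = (fb 2).symm v := by decide

theorem two2 : ∀ v : ZMod 2 × ZMod 2, fb 2 (fb 2 (fb 2 v)) = v := by decide

theorem no_pair_nil (hK : Closed K)
    (hn : ∀ (G : Type u) [Group G], K G → Group.IsNilpotent G) (p : ℕ) (hp : p.Prime) :
    ¬ Has K (Multiplicative (ZMod p × ZMod p)) := by
  intro h
  have : Fact p.Prime := ⟨hp⟩
  have hnil := has_nil hn (has_aut hK h)
  rcases hp.eq_two_or_odd' with h2 | h2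
  · subst h2
    have h1 := nil_inv (G := MulAut (Multiplicative (ZMod 2 × ZMod 2)))
      (AddEquiv.toMultiplicative (sw 2)) (AddEquiv.toMultiplicative (fb 2)) 1 (by
        apply MulEquiv.ext
        intro v
        exact congrArg Multiplicative.ofAdd (two1 (Multiplicative.toAdd v))) (by
        apply MulEquiv.ext
        intro v
        exact congrArg Multiplicative.ofAdd (two2 (Multiplicative.toAdd v)))
    have h3 := congrArg (fun f : MulAut (Multiplicative (ZMod 2 × ZMod 2)) =>
      (Multiplicative.toAdd (f (Multiplicative.ofAdd (0, 1)))).1) h1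
    have h4 : (1 : ZMod 2) = 0 := h3
    simp at h4
  · obtain ⟨k, hk⟩ := h2
    have h1 := nil_inv (G := MulAut (Multiplicative (ZMod p × ZMod p)))
      (AddEquiv.toMultiplicative (ng p)) (AddEquiv.toMultiplicative (shr p)) k (by
        apply MulEquiv.ext
        intro v
        apply Multiplicative.toAdd.injective
        change (_ : ZMod p × ZMod p) = _
        ext
        · change (Multiplicative.toAdd v).1 + -(Multiplicative.toAdd v).2 =
            (Multiplicative.toAdd v).1 - (Multiplicative.toAdd v).2
          ring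
        · change - - (Multiplicative.toAdd v).2 = (Multiplicative.toAdd v).2
          ring) (by
        apply MulEquiv.ext
        intro v
        rw [← hk]
        have := shr_pow p p (Multiplicative.toAdd v)
        simp only [ofAdd_toAdd] at this
        rw [this]
        simp)
    have h3 := congrArg (fun f : MulAut (Multiplicative (ZMod p × ZMod p)) =>
      (Multiplicative.toAdd (f (Multiplicative.ofAdd (0, 1)))).1) h1
    have h4 : (0 : ZMod p) + 1 = 0 := h3
    simp at h4

theorem perm3_not_nil : ¬ Group.IsNilpotent (ULift.{u} (Equiv.Perm (Fin 3))) := by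
  intro h
  have h1 := nil_inv (G := ULift.{u} (Equiv.Perm (Fin 3))) ⟨Equiv.swap 0 1⟩
    ⟨Equiv.swap 0 1 * Equiv.swap 1 2⟩ 1
    (ULift.ext _ _ (show Equiv.swap 0 1 * (Equiv.swap 0 1 * Equiv.swap 1 2) *
      (Equiv.swap 0 1)⁻¹ = ((Equiv.swap 0 1 * Equiv.swap 1 2 : Equiv.Perm (Fin 3)))⁻¹ by decide))
    (ULift.ext _ _ (show (Equiv.swap 0 1 * Equiv.swap 1 2 : Equiv.Perm (Fin 3)) ^ (2 * 1 + 1) = 1
      by decide))
  have h2 : (Equiv.swap 0 1 * Equiv.swap 1 2 : Equiv.Perm (Fin 3)) = 1 := congrArg ULift.down h1
  revert h2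
  decide

/-- members of an admissible class of nilpotent groups are finite -/
theorem nil_fin (hK : Admissible K)
    (hn : ∀ (G : Type u) [Group G], K G → Group.IsNilpotent G) (G : Type u) [Group G]
    (h : K G) : Finite G := by
  by_contra hinf
  have hnil := hn G h
  have hsol : Group.IsSolvable G := inferInstance
  obtain ⟨c, hc'⟩ := vsol_ac hK (has_of h) ⊤ inferInstance inferInstance
  have hco : ¬ IsOfFinOrder c := by
    intro hco
    have h1 : Finite (Subgroup.zpowers c) := hco.finite_zpowers
    have h2 : Finite (G ⧸ Subgroup.zpowers c) := Subgroup.finite_quotient_of_finiteIndex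
    exact hinf (Finite.of_subgroup_quotient (Subgroup.zpowers c))
  have h1 : K (ULift.{u} (Equiv.Perm (Fin 3))) :=
    mixed hK.toClosed G h c hco _ (Or.inl inferInstance)
  exact perm3_not_nil (hn _ h1)

theorem nil_comm (hK : Admissible K)
    (hn : ∀ (G : Type u) [Group G], K G → Group.IsNilpotent G) (G : Type u) [Group G]
    (h : K G) : ∀ x y : G, x * y = y * x := by
  have hnil := hn G h
  revert h
  refine Group.nilpotent_center_quotient_ind
    (P := fun (G : Type u) [Group G] [Group.IsNilpotent G] => K G → ∀ x y : G, x * y = y * x)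
    G ?_ ?_
  · intro G _ _ _ x y
    exact Subsingleton.elim _ _
  · intro G _ _ ih hG x y
    have hQ : K (G ⧸ Subgroup.center G) :=
      hK.quot _ _ (QuotientGroup.mk' _) (QuotientGroup.mk'_surjective _) hG
    let _ : CommGroup (G ⧸ Subgroup.center G) :=
      { (inferInstance : Group (G ⧸ Subgroup.center G)) with mul_comm := ih hQ }
    have hfin := nil_fin hK hn _ hQ
    have hcyc : IsCyclic (G ⧸ Subgroup.center G) :=
      fin_cyc hK.toClosed (no_pair_nil hK.toClosed hn) (has_of hQ)
    exact ((QuotientGroup.mk' (Subgroup.center G)).isMulCommutative_of_isCyclic_of_ker_le_center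
      (by rw [QuotientGroup.ker_mk'])).is_comm.comm x y

/-- classification of the admissible classes of nilpotent groups -/
theorem nilpotent_classes
    (hiso : ∀ (G H : Type u) [Group G] [Group H], Nonempty (G ≃* H) → K G → K H)
    (hn : ∀ (G : Type u) [Group G], K G → Group.IsNilpotent G) :
    Admissible K ↔ ∃ N : Set ℕ, 0 ∉ N ∧ (∀ n ∈ N, ∀ d, d ∣ n → d ∈ N) ∧
      (∀ n ∈ N, n.totient ∈ N) ∧ (∀ n ∈ N, Shape n) ∧
      ∀ (G : Type u) [Group G], K G ↔ IsCyclic G ∧ Nat.card G ∈ N := by
  constructor
  · intro h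
    exact (abelian_classes hiso (nil_comm h hn)).1 h
  · rintro ⟨N, h⟩
    refine (abelian_classes hiso ?_).2 ⟨N, h⟩
    intro G _ hG x y
    have := ((h.2.2.2.2 G).1 hG).1
    let _ : CommGroup G := IsCyclic.commGroup
    exact mul_comm x y

end Pool.Agent.Helper480.AC
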